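import Pool.Agent.MP_8f2dc9_al.Mg.Height
import Pool.Agent.MP_8f2dc9_al.Defs

/-!
The locally finite graph: a net in the model space.
-/

namespace Pool.Agent.MP_8f2dc9_al

universe u

/-- rounding down to a multiple of `2 ^ t` -/
noncomputable def rnd (t : ℤ) (x : ℝ) : ℝ := 2 ^ t * ⌊x / 2 ^ t⌋

lemma rnd_le (t : ℤ) (x : ℝ) : rnd t x ≤ x := by
  have h := Int.floor_le (x / 2 ^ t)
  have hp := two_zpow_pos t
  rw [le_div_iff₀ hp] at h
  unfold rnd; linarith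

lemma lt_rnd (t : ℤ) (x : ℝ) : x - 2 ^ t < rnd t x := by
  have h := Int.lt_floor_add_one (x / 2 ^ t)
  have hp := two_zpow_pos t
  rw [div_lt_iff₀ hp] at h
  unfold rnd; linarith

lemma rnd_rnd (t : ℤ) (x : ℝ) : rnd t (rnd t x) = rnd t x := by
  have hp := two_zpow_pos t
  unfold rnd
  rw [mul_div_cancel_left₀ _ hp.ne', Int.floor_intCast]

/-- normalisation of a point of the model -/
noncomputable def nrm (u : Pt) : Pt := ⟨trunc u.t u.c, rnd u.t u.x, u.t⟩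

lemma nrm_nrm (u : Pt) : nrm (nrm u) = nrm u := by
  show (⟨trunc u.t (trunc u.t u.c), rnd u.t (rnd u.t u.x), u.t⟩ : Pt) = _
  rw [rnd_rnd, ← trunc_eq_of_Ag (Ag_trunc u.t u.c)]
  rfl

lemma DD_nrm (u : Pt) : DD u (nrm u) ≤ 0 := by
  have : mj u (nrm u) ≤ u.t := mj_le ⟨le_rfl, le_rfl, Ag_trunc _ _, by
    show |u.x - rnd u.t u.x| ≤ _
    have := rnd_le u.t u.x
    have := lt_rnd u.t u.x
    rw [abs_le]; constructor <;> linarith [two_zpow_pos u.t]⟩
  show 2 * mj _ _ - u.t - u.t ≤ 0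
  omega

/-- vertices -/
def VV : Type := {u : Pt // nrm u = u}

/-- the nearest vertex -/
noncomputable def NN (u : Pt) : VV := ⟨nrm u, nrm_nrm u⟩

lemma NN_val (v : VV) : NN v.1 = v := Subtype.ext v.2

/-- the graph -/
noncomputable def XG : SimpleGraph VV := SimpleGraph.fromRel (fun u v => DD u.1 v.1 ≤ 2)

lemma XG_adj {u v : VV} : XG.Adj u v ↔ u ≠ v ∧ DD u.1 v.1 ≤ 2 := by
  unfold XG
  rw [SimpleGraph.fromRel_adj, DD_comm v.1, or_self]

/-- joined by a walk of length at most `n` -/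
def Rch (n : ℕ) (u v : VV) : Prop := ∃ p : XG.Walk u v, p.length ≤ n

lemma Rch.trans {m n : ℕ} {u v w : VV} (h : Rch m u v) (h' : Rch n v w) : Rch (m + n) u w := by
  obtain ⟨p, hp⟩ := h
  obtain ⟨q, hq⟩ := h'
  exact ⟨p.append q, by rw [SimpleGraph.Walk.length_append]; omega⟩

lemma Rch.symm {m : ℕ} {u v : VV} (h : Rch m u v) : Rch m v u := by
  obtain ⟨p, hp⟩ := h
  exact ⟨p.reverse, by rw [SimpleGraph.Walk.length_reverse]; exact hp⟩

lemma Rch_one {u v : VV} (h : DD u.1 v.1 ≤ 2) : Rch 1 u v := by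
  by_cases huv : u = v
  · subst huv; exact ⟨SimpleGraph.Walk.nil, by simp⟩
  · exact ⟨SimpleGraph.Walk.cons (XG_adj.2 ⟨huv, h⟩) SimpleGraph.Walk.nil, by simp⟩

lemma Rch_up (u : Pt) (n : ℕ) : Rch n (NN u) (NN (vert u (u.t + n))) := by
  induction n with
  | zero =>
    simp only [Nat.cast_zero, add_zero, vert_self]
    exact ⟨SimpleGraph.Walk.nil, by simp⟩
  | succ n ih =>
    refine ih.trans (Rch_one ?_)
    push_cast
    rw [← add_assoc]
    generalize u.t + n = k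
    have : mj (nrm (vert u k)) (nrm (vert u (k + 1))) ≤ k + 1 :=
      mj_le ⟨show k ≤ k + 1 by omega, le_rfl,
        ((Ag_trunc k u.c).symm.mono (by omega)).trans (Ag_trunc (k + 1) u.c), by
        show |rnd k u.x - rnd (k + 1) u.x| ≤ _
        have := rnd_le k u.x
        have := lt_rnd k u.x
        have := rnd_le (k + 1) u.x
        have := lt_rnd (k + 1) u.x
        have := two_zpow_succ k
        have := two_zpow_pos k
        rw [abs_le]; constructor <;> linarith⟩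
    show 2 * mj (nrm (vert u k)) (nrm (vert u (k + 1))) - k - (k + 1) ≤ 2
    omega

lemma Rch_DD (u v : Pt) : Rch (DD u v + 1).toNat (NN u) (NN v) := by
  have hu := le_mj_left u v
  have hv := le_mj_right u v
  have h1 := Rch_up u (mj u v - u.t).toNat
  have h2 := Rch_up v (mj u v - v.t).toNat
  rw [show u.t + ((mj u v - u.t).toNat : ℤ) = mj u v by omega] at h1
  rw [show v.t + ((mj u v - v.t).toNat : ℤ) = mj u v by omega] at h2
  have h3 : Rch 1 (NN (vert u (mj u v))) (NN (vert v (mj u v))) := by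
    apply Rch_one
    have hJ := JJ_mj u v
    generalize mj u v = m at hJ
    have : mj (nrm (vert u m)) (nrm (vert v m)) ≤ m + 1 :=
      mj_le ⟨show m ≤ m + 1 by omega, show m ≤ m + 1 by omega,
        (((Ag_trunc m u.c).symm.trans hJ.2.2.1).trans (Ag_trunc m v.c)).mono (by omega), by
        show |rnd m u.x - rnd m v.x| ≤ _
        have := rnd_le m u.x
        have := lt_rnd m u.x
        have := rnd_le m v.x
        have := lt_rnd m v.x
        have := two_zpow_succ m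
        have := abs_le.1 hJ.2.2.2
        rw [abs_le]; constructor <;> linarith⟩
    show 2 * mj (nrm (vert u m)) (nrm (vert v m)) - m - m ≤ 2
    omega
  have h4 := (h1.trans h3).trans h2.symm
  have e : (mj u v - u.t).toNat + 1 + (mj u v - v.t).toNat = (DD u v + 1).toNat := by
    unfold DD; omega
  rwa [e] at h4

lemma XG_connected : XG.Connected := by
  have : Nonempty VV := ⟨NN ⟨0, 0, 0⟩⟩
  refine ⟨fun u v => ?_⟩
  obtain ⟨p, -⟩ := Rch_DD u.1 v.1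
  rw [NN_val, NN_val] at p
  exact ⟨p⟩

lemma dist_le_DD (u v : VV) : (XG.dist u v : ℤ) ≤ DD u.1 v.1 + 1 := by
  have h := Rch_DD u.1 v.1
  rw [NN_val, NN_val] at h
  obtain ⟨p, hp⟩ := h
  have := XG.dist_le p
  have := DD_nonneg u.1 v.1
  omega

lemma DD_le_dist (u v : VV) : DD u.1 v.1 ≤ 4 * (XG.dist u v : ℤ) := by
  obtain ⟨p, hp⟩ := XG_connected.exists_walk_length_eq_dist u v
  rw [← hp]
  clear hp
  induction p with
  | nil => simp [DD_self]
  | @cons a b c h p ih =>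
    have := (XG_adj.1 h).2
    have := DD_tri a.1 b.1 c.1
    rw [SimpleGraph.Walk.length_cons]
    push_cast
    omega

lemma DD_NN_le (u v : Pt) : DD (NN u).1 (NN v).1 ≤ DD u v + 4 := by
  have a1 := DD_tri (nrm u) u (nrm v)
  have a2 := DD_tri u v (nrm v)
  have a3 := DD_nrm u
  have a4 := DD_nrm v
  rw [DD_comm] at a3
  show DD (nrm u) (nrm v) ≤ _
  omega

lemma DD_le_NN (u v : Pt) : DD u v ≤ DD (NN u).1 (NN v).1 + 4 := by
  have a1 := DD_tri u (nrm u) v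
  have a2 := DD_tri (nrm u) (nrm v) v
  have a3 := DD_nrm u
  have a4 := DD_nrm v
  rw [DD_comm] at a4
  show _ ≤ DD (nrm u) (nrm v) + 4
  omega

lemma XG_locallyFinite (u : VV) : (XG.neighborSet u).Finite := by
  obtain ⟨R, hR⟩ : ∃ R : ℝ, R = (|u.1.x| + 2 ^ (u.1.t + 2)) / 2 ^ (u.1.t - 2) := ⟨_, rfl⟩
  have hb : ∀ v ∈ XG.neighborSet u, u.1.t - 2 ≤ v.1.t ∧ JJ u.1 v.1 (u.1.t + 2) := by
    intro v hv
    have h := (XG_adj.1 hv).2
    have a1 := t_le_DD' u.1 v.1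
    have a2 := mj_le_DD u.1 v.1
    exact ⟨by omega, JJ_of_le (by omega)⟩
  refine Set.Finite.of_injOn
    (f := fun v : VV => (v.1.t, Quotient.mk (lev (u.1.t - 2)) v.1.c, ⌊v.1.x / 2 ^ v.1.t⌋))
    (t := Set.Icc (u.1.t - 2) (u.1.t + 2) ×ˢ
      (Quotient.mk (lev (u.1.t - 2)) '' blk (u.1.t + 2) u.1.c) ×ˢ Set.Icc ⌊-R⌋ ⌊R⌋)
    (fun v hv => ?_) (fun v hv w hw h => ?_)
    ((Set.finite_Icc _ _).prod ((fin_lev_blk _ _ _).prod (Set.finite_Icc _ _)))
  · obtain ⟨h1, h2⟩ := hb v hv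
    have hp := two_zpow_pos v.1.t
    have h3 : |v.1.x / 2 ^ v.1.t| ≤ R := by
      rw [abs_div, abs_of_pos hp, hR]
      apply div_le_div₀ (by positivity) _ (two_zpow_pos _) (two_zpow_mono h1)
      have := h2.2.2.2
      have := abs_sub_abs_le_abs_sub v.1.x u.1.x
      rw [abs_sub_comm] at this
      linarith
    rw [abs_le] at h3
    exact ⟨⟨h1, h2.2.1⟩, ⟨v.1.c, h2.2.2.1, rfl⟩, Int.floor_le_floor h3.1, Int.floor_le_floor h3.2⟩
  · simp only [Prod.mk.injEq] at h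
    obtain ⟨e1, e2, e3⟩ := h
    have e4 : Ag (u.1.t - 2) v.1.c w.1.c := Quotient.exact e2
    apply Subtype.ext
    rw [← v.2, ← w.2]
    unfold nrm rnd
    rw [trunc_eq_of_Ag (e4.mono (hb v hv).1), e3, e1]

/-- the coarse symmetries -/
noncomputable def sg (s : ℤ) (e : Cc) (ξ : ℝ) (u : Pt) : Pt :=
  ⟨sh (pos2 s) s u.c + e, 2 ^ s * u.x + ξ, u.t + s⟩

lemma DD_sg (s : ℤ) (e : Cc) (ξ : ℝ) (u v : Pt) :
    DD (sg s e ξ u) (sg s e ξ v) ≤ DD u v ∧ DD u v ≤ DD (sg s e ξ u) (sg s e ξ v) + 2 := by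
  have hp := two_zpow_pos s
  have hx : |(sg s e ξ u).x - (sg s e ξ v).x| = 2 ^ s * |u.x - v.x| := by
    show |2 ^ s * u.x + ξ - (2 ^ s * v.x + ξ)| = _
    rw [show 2 ^ s * u.x + ξ - (2 ^ s * v.x + ξ) = 2 ^ s * (u.x - v.x) by ring, abs_mul,
      abs_of_pos hp]
  have h1 : mj (sg s e ξ u) (sg s e ξ v) ≤ mj u v + s := by
    have hJ := JJ_mj u v
    refine mj_le ⟨show u.t + s ≤ _ by have := hJ.1; omega, show v.t + s ≤ _ by have := hJ.2.1; omega,
      (hJ.2.2.1.shift s).add_right e, ?_⟩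
    rw [hx, zpow_add₀ (by norm_num), mul_comm]
    exact mul_le_mul_of_nonneg_right hJ.2.2.2 hp.le
  have h2 : mj u v ≤ mj (sg s e ξ u) (sg s e ξ v) - s + 1 := by
    have hJ := JJ_mj (sg s e ξ u) (sg s e ξ v)
    generalize mj (sg s e ξ u) (sg s e ξ v) = m at hJ
    have a1 : u.t + s ≤ m := hJ.1
    have a2 : v.t + s ≤ m := hJ.2.1
    have a3 : Ag m (sh (pos2 s) s u.c) (sh (pos2 s) s v.c) := Ag.of_add_right hJ.2.2.1
    have a4 := hJ.2.2.2
    refine mj_le ⟨by omega, by omega, Ag.of_shift (s := s) (by rwa [sub_add_cancel]), ?_⟩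
    rw [hx] at a4
    have a5 : (2 : ℝ) ^ m = 2 ^ s * 2 ^ (m - s) := by
      rw [← zpow_add₀ (by norm_num)]; congr 1; ring
    rw [a5] at a4
    exact (le_of_mul_le_mul_left a4 hp).trans (two_zpow_mono (by omega))
  have e1 : (sg s e ξ u).t = u.t + s := rfl
  have e2 : (sg s e ξ v).t = v.t + s := rfl
  unfold DD
  omega

lemma sg_surj (s : ℤ) (e : Cc) (ξ : ℝ) (y : Pt) : ∃ u, sg s e ξ u = y := by
  refine ⟨⟨sh (-pos2 s) (-s) (y.c - e), (y.x - ξ) / 2 ^ s, y.t - s⟩, ?_⟩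
  have hp := two_zpow_pos s
  unfold sg
  simp only
  rw [sh_sh, sub_add_cancel, mul_div_cancel₀ _ hp.ne', sub_add_cancel, sub_add_cancel]

lemma XG_coarselyTransitive : IsCoarselyTransitive XG := by
  refine ⟨4, 7, by norm_num, by norm_num, fun x y => ?_⟩
  obtain ⟨s, hs⟩ : ∃ s, s = y.1.t - x.1.t := ⟨_, rfl⟩
  obtain ⟨e, he⟩ : ∃ e, e = y.1.c - sh (pos2 s) s x.1.c := ⟨_, rfl⟩
  obtain ⟨ξ, hξ⟩ : ∃ ξ, ξ = y.1.x - 2 ^ s * x.1.x := ⟨_, rfl⟩
  refine ⟨fun u => NN (sg s e ξ u.1), ⟨fun u v => ?_, fun w => ?_⟩, ?_⟩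
  · have a1 := DD_sg s e ξ u.1 v.1
    have a2 := dist_le_DD u v
    have a3 := DD_le_dist u v
    have a4 := dist_le_DD (NN (sg s e ξ u.1)) (NN (sg s e ξ v.1))
    have a5 := DD_le_dist (NN (sg s e ξ u.1)) (NN (sg s e ξ v.1))
    have a6 := DD_NN_le (sg s e ξ u.1) (sg s e ξ v.1)
    have a7 := DD_le_NN (sg s e ξ u.1) (sg s e ξ v.1)
    have b1 : (XG.dist u v : ℤ) ≤ 4 * XG.dist (NN (sg s e ξ u.1)) (NN (sg s e ξ v.1)) + 7 := by
      omega
    have b2 : (XG.dist (NN (sg s e ξ u.1)) (NN (sg s e ξ v.1)) : ℤ) ≤ 4 * XG.dist u v + 7 := by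
      omega
    have c1 : (XG.dist u v : ℝ) ≤ 4 * XG.dist (NN (sg s e ξ u.1)) (NN (sg s e ξ v.1)) + 7 := by
      exact_mod_cast b1
    have c2 : (XG.dist (NN (sg s e ξ u.1)) (NN (sg s e ξ v.1)) : ℝ) ≤ 4 * XG.dist u v + 7 := by
      exact_mod_cast b2
    constructor <;> linarith
  · obtain ⟨u, hu⟩ := sg_surj s e ξ w.1
    refine ⟨NN u, ?_⟩
    have a1 := (DD_sg s e ξ u (nrm u)).1
    have a2 := DD_nrm u
    have a3 := DD_nrm (sg s e ξ (nrm u))
    have a4 := DD_tri w.1 (sg s e ξ (nrm u)) (nrm (sg s e ξ (nrm u)))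
    have a5 : _ ≤ DD w.1 (nrm (sg s e ξ (nrm u))) + 1 := dist_le_DD w (NN (sg s e ξ (nrm u)))
    rw [hu] at a1
    have b1 : (XG.dist w (NN (sg s e ξ (nrm u))) : ℤ) ≤ 7 := by omega
    exact_mod_cast b1
  · have : sg s e ξ x.1 = y.1 := by
      unfold sg
      rw [he, hξ, add_sub_cancel, add_sub_cancel, hs, add_sub_cancel]
    show NN (sg s e ξ x.1) = y
    rw [this, NN_val]

lemma iso_dist {W : Type u} {Y : SimpleGraph W} (hY : Y.Connected) (g : Y ≃g Y) (a b : W) :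
    Y.dist (g a) (g b) = Y.dist a b := by
  have key : ∀ (g : Y ≃g Y) (a b : W), Y.dist (g a) (g b) ≤ Y.dist a b := by
    intro g a b
    obtain ⟨p, hp⟩ := hY.exists_walk_length_eq_dist a b
    have := Y.dist_le (p.map g.toHom)
    rw [SimpleGraph.Walk.length_map, hp] at this
    exact this
  refine le_antisymm (key g a b) ?_
  have := key g.symm (g a) (g b)
  simpa using this

theorem XG_not_qi {W : Type u} (Y : SimpleGraph W) (hY : Y.Connected)
    (ht : IsVertexTransitive Y) : ¬ QuasiIsometric XG Y := by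
  rintro ⟨K, C, hK, hC, φ, h1, h2⟩
  obtain ⟨A, hA⟩ := exists_nat_ge (K + C + K * C)
  have hKC : 0 ≤ K * C := by positivity
  have q1 : ∀ x x', (Y.dist (φ x) (φ x') : ℤ) ≤ A * XG.dist x x' + A := by
    intro x x'
    have a1 := (h1 x x').2
    have a2 : (0 : ℝ) ≤ XG.dist x x' := Nat.cast_nonneg _
    have a3 : (Y.dist (φ x) (φ x') : ℝ) ≤ A * XG.dist x x' + A := by nlinarith
    exact_mod_cast a3
  have q2 : ∀ x x', (XG.dist x x' : ℤ) ≤ A * Y.dist (φ x) (φ x') + A := by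
    intro x x'
    have a1 := (h1 x x').1
    have a2 : (0 : ℝ) ≤ Y.dist (φ x) (φ x') := Nat.cast_nonneg _
    have a4 : (XG.dist x x' : ℝ) ≤ K * (Y.dist (φ x) (φ x') + C) := by
      rw [← inv_mul_le_iff₀ (by linarith)]; linarith
    have a3 : (XG.dist x x' : ℝ) ≤ A * Y.dist (φ x) (φ x') + A := by nlinarith
    exact_mod_cast a3
  have q3 : ∀ y, ∃ x, (Y.dist y (φ x) : ℤ) ≤ A := by
    intro y
    obtain ⟨x, hx⟩ := h2 y
    have : (Y.dist y (φ x) : ℝ) ≤ A := by linarith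
    exact ⟨x, by exact_mod_cast this⟩
  choose ψ hψ using q3
  obtain ⟨L, hL⟩ : ∃ L : ℤ, L = 6 * A + 4 := ⟨_, rfl⟩
  have hA0 : (0 : ℤ) ≤ A := Nat.cast_nonneg A
  have hL0 : 0 ≤ L := by omega
  let d : W → W → ℤ := fun a b => Y.dist a b
  have d_tri : ∀ a b c, d a c ≤ d a b + d b c := fun a b c => by
    have := hY.dist_triangle (u := a) (v := b) (w := c)
    simp only [d]; omega
  have d_comm : ∀ a b, d a b = d b a := fun a b => by simp only [d]; rw [Y.dist_comm]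
  have d_iso : ∀ (g : Y ≃g Y) a b, d (g a) (g b) = d a b := fun g a b => by
    simp only [d]; rw [iso_dist hY]
  let Φ : Pt → W := fun u => φ (NN u)
  let Ψ : W → Pt := fun y => (ψ y).1
  have r0 : ∀ y, d y (Φ (Ψ y)) ≤ L := fun y => by
    have := hψ y
    simp only [d, Φ, Ψ, NN_val]; omega
  have r1 : ∀ u v k, DD u v ≤ k → d (Φ u) (Φ v) ≤ L * k + L := fun u v k hk => by
    have a1 := q1 (NN u) (NN v)
    have a2 := dist_le_DD (NN u) (NN v)
    have a3 := DD_NN_le u v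
    have a4 := DD_nonneg u v
    have a5 : (A : ℤ) * XG.dist (NN u) (NN v) ≤ A * (k + 5) :=
      mul_le_mul_of_nonneg_left (by omega) hA0
    have a6 : (A : ℤ) * k ≤ L * k := mul_le_mul_of_nonneg_right (by omega) (by omega)
    simp only [d, Φ]
    rw [mul_add] at a5
    omega
  have r2 : ∀ u v k, d (Φ u) (Φ v) ≤ k → DD u v ≤ L * k + L := fun u v k hk => by
    have a1 := q2 (NN u) (NN v)
    have a2 := DD_le_dist (NN u) (NN v)
    have a3 := DD_le_NN u v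
    simp only [d, Φ] at hk
    have a5 : (A : ℤ) * Y.dist (φ (NN u)) (φ (NN v)) ≤ A * k := mul_le_mul_of_nonneg_left hk hA0
    have a6 : 4 * (A : ℤ) * k ≤ L * k := mul_le_mul_of_nonneg_right (by omega) (by omega)
    rw [mul_assoc] at a6
    omega
  have hLL : 0 ≤ L * L := by positivity
  refine QAct.false (Γ := Y ≃g Y) (f := fun g u => Ψ (g (Φ u))) (B := 3 * (L * L) + L)
    ⟨by omega, fun g u v => ⟨?_, ?_⟩, fun g h u => ?_, fun u => ?_, fun g u => ?_, fun u v => ?_⟩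
  · have a1 := r1 u v _ le_rfl
    have a2 := r0 (g (Φ u))
    have a3 := r0 (g (Φ v))
    have a4 := d_tri (Φ (Ψ (g (Φ u)))) (g (Φ u)) (Φ (Ψ (g (Φ v))))
    have a5 := d_tri (g (Φ u)) (g (Φ v)) (Φ (Ψ (g (Φ v))))
    rw [d_iso] at a5
    rw [d_comm] at a2
    have a6 := r2 (Ψ (g (Φ u))) (Ψ (g (Φ v))) (L * DD u v + 3 * L) (by omega)
    have a7 := DD_nonneg u v
    have a8 := mul_nonneg hLL a7
    have a9 := mul_nonneg hL0 a7
    nlinarith
  · have a1 := r1 (Ψ (g (Φ u))) (Ψ (g (Φ v))) _ le_rfl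
    have a2 := r0 (g (Φ u))
    have a3 := r0 (g (Φ v))
    have a4 := d_tri (g (Φ u)) (Φ (Ψ (g (Φ u)))) (g (Φ v))
    have a5 := d_tri (Φ (Ψ (g (Φ u)))) (Φ (Ψ (g (Φ v)))) (g (Φ v))
    rw [d_iso] at a4
    rw [d_comm] at a3
    have a6 := r2 u v (L * DD (Ψ (g (Φ u))) (Ψ (g (Φ v))) + 3 * L) (by omega)
    have a7 := DD_nonneg (Ψ (g (Φ u))) (Ψ (g (Φ v)))
    have a8 := mul_nonneg hLL a7
    have a9 := mul_nonneg hL0 a7
    nlinarith
  · have a2 := r0 ((g * h) (Φ u))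
    have a3 := r0 (g (Φ (Ψ (h (Φ u)))))
    have a1 := r0 (h (Φ u))
    have a4 := d_tri (Φ (Ψ ((g * h) (Φ u)))) ((g * h) (Φ u)) (Φ (Ψ (g (Φ (Ψ (h (Φ u)))))))
    have a5 := d_tri (g (h (Φ u))) (g (Φ (Ψ (h (Φ u))))) (Φ (Ψ (g (Φ (Ψ (h (Φ u)))))))
    rw [d_iso] at a5
    rw [d_comm] at a2
    have e : (g * h) (Φ u) = g (h (Φ u)) := rfl
    rw [e] at a2 a4 ⊢
    have a6 := r2 (Ψ (g (h (Φ u)))) (Ψ (g (Φ (Ψ (h (Φ u)))))) (3 * L) (by omega)
    nlinarith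
  · have a2 := r0 (Φ u)
    rw [d_comm] at a2
    have a6 := r2 (Ψ (Φ u)) u L a2
    show DD (Ψ (Φ u)) u ≤ _
    omega
  · have a2 := r0 (g⁻¹ (Φ (Ψ (g (Φ u)))))
    have a1 := r0 (g (Φ u))
    have a4 := d_tri (Φ (Ψ (g⁻¹ (Φ (Ψ (g (Φ u))))))) (g⁻¹ (Φ (Ψ (g (Φ u))))) (Φ u)
    have a5 := d_iso g⁻¹ (Φ (Ψ (g (Φ u)))) (g (Φ u))
    have e : g⁻¹ (g (Φ u)) = Φ u := g.symm_apply_apply _
    rw [e] at a5
    rw [d_comm] at a2 a1
    have a6 := r2 (Ψ (g⁻¹ (Φ (Ψ (g (Φ u)))))) u (2 * L) (by omega)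
    nlinarith
  · obtain ⟨g, hg⟩ := ht (Φ u) (Φ v)
    refine ⟨g, ?_⟩
    rw [hg]
    have a2 := r0 (Φ v)
    rw [d_comm] at a2
    have a6 := r2 (Ψ (Φ v)) v L a2
    omega

end Pool.Agent.MP_8f2dc9_al
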