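import Mathlib

-- part MP_8f2dc9_al.Cantor
section

/-!
The ultrametric space of leaves: pairs of a binary and a ternary digit sequence, with
level `t` agreement read off at the binary position `⌊√2 t⌋` and the ternary position `t`.
-/

namespace Pool.Agent.MP_8f2dc9_al

/-- binary position belonging to level `t` -/
noncomputable def pos2 (t : ℤ) : ℤ := ⌊Real.sqrt 2 * t⌋

lemma one_lt_sqrt2 : (1 : ℝ) < Real.sqrt 2 := by
  rw [Real.lt_sqrt (by norm_num)]; norm_num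

lemma sqrt2_lt_two : Real.sqrt 2 < 2 := by
  rw [Real.sqrt_lt' (by norm_num)]; norm_num

lemma pos2_mono {t t' : ℤ} (h : t ≤ t') : pos2 t ≤ pos2 t' := by
  unfold pos2
  apply Int.floor_le_floor
  have : (t : ℝ) ≤ t' := by exact_mod_cast h
  have := one_lt_sqrt2
  nlinarith

lemma pos2_add_ge (t s : ℤ) : pos2 t + pos2 s ≤ pos2 (t + s) := by
  unfold pos2
  have : Real.sqrt 2 * ((t + s : ℤ) : ℝ) = Real.sqrt 2 * t + Real.sqrt 2 * s := by
    push_cast; ring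
  rw [this]
  exact Int.le_floor_add _ _

lemma pos2_add_le (t s : ℤ) : pos2 (t + s) ≤ pos2 t + pos2 s + 1 := by
  unfold pos2
  have : Real.sqrt 2 * ((t + s : ℤ) : ℝ) = Real.sqrt 2 * t + Real.sqrt 2 * s := by
    push_cast; ring
  rw [this]
  have := Int.le_floor_add_floor (Real.sqrt 2 * t) (Real.sqrt 2 * s)
  omega

lemma pos2_one : pos2 1 = 1 := by
  unfold pos2
  rw [Int.floor_eq_iff]
  have := one_lt_sqrt2
  have := sqrt2_lt_two
  constructor <;> push_cast <;> linarith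

lemma pos2_succ (t : ℤ) : pos2 t + 1 ≤ pos2 (t + 1) := by
  have := pos2_add_ge t 1
  rw [pos2_one] at this
  exact this

lemma le_pos2 {t : ℤ} (h : 0 ≤ t) : t ≤ pos2 t := by
  unfold pos2
  rw [Int.le_floor]
  have : (0 : ℝ) ≤ t := by exact_mod_cast h
  have := one_lt_sqrt2
  nlinarith

lemma pos2_le {t : ℤ} (h : t ≤ 0) : pos2 t ≤ t := by
  unfold pos2
  have h1 : (t : ℝ) ≤ 0 := by exact_mod_cast h
  have h2 := one_lt_sqrt2
  have h3 : Real.sqrt 2 * t ≤ t := by nlinarith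
  have := Int.floor_le_floor h3
  simpa using this

/-- the group of digit sequences vanishing far to the right -/
def Cs : AddSubgroup ((ℤ → ZMod 2) × (ℤ → ZMod 3)) where
  carrier := {c | ∃ N : ℤ, ∀ i, N ≤ i → c.1 i = 0 ∧ c.2 i = 0}
  zero_mem' := ⟨0, fun _ _ => ⟨rfl, rfl⟩⟩
  add_mem' := by
    rintro a b ⟨N, hN⟩ ⟨N', hN'⟩
    refine ⟨max N N', fun i hi => ?_⟩
    have h1 := hN i (le_trans (le_max_left _ _) hi)
    have h2 := hN' i (le_trans (le_max_right _ _) hi)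
    simp [h1.1, h1.2, h2.1, h2.2]
  neg_mem' := by
    rintro a ⟨N, hN⟩
    refine ⟨N, fun i hi => ?_⟩
    have h1 := hN i hi
    simp [h1.1, h1.2]

/-- the space of leaves -/
abbrev Cc : Type := ↥Cs

/-- agreement at level `t` -/
def Ag (t : ℤ) (c c' : Cc) : Prop :=
  (∀ i, pos2 t ≤ i → c.1.1 i = c'.1.1 i) ∧ (∀ i, t ≤ i → c.1.2 i = c'.1.2 i)

lemma Ag.refl (t : ℤ) (c : Cc) : Ag t c c := ⟨fun _ _ => rfl, fun _ _ => rfl⟩

lemma Ag.symm {t : ℤ} {c c' : Cc} (h : Ag t c c') : Ag t c' c :=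
  ⟨fun i hi => (h.1 i hi).symm, fun i hi => (h.2 i hi).symm⟩

lemma Ag.trans {t : ℤ} {c c' c'' : Cc} (h : Ag t c c') (h' : Ag t c' c'') : Ag t c c'' :=
  ⟨fun i hi => (h.1 i hi).trans (h'.1 i hi), fun i hi => (h.2 i hi).trans (h'.2 i hi)⟩

lemma Ag.mono {t t' : ℤ} {c c' : Cc} (h : Ag t c c') (ht : t ≤ t') : Ag t' c c' :=
  ⟨fun i hi => h.1 i (le_trans (pos2_mono ht) hi), fun i hi => h.2 i (le_trans ht hi)⟩

lemma exists_Ag (c c' : Cc) : ∃ t, Ag t c c' := by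
  obtain ⟨N, hN⟩ := c.2
  obtain ⟨N', hN'⟩ := c'.2
  refine ⟨max 0 (max N N'), fun i hi => ?_, fun i hi => ?_⟩
  · have := le_pos2 (le_max_left 0 (max N N'))
    rw [(hN i (by omega)).1, (hN' i (by omega)).1]
  · rw [(hN i (by omega)).2, (hN' i (by omega)).2]

lemma exists_pos2_le (i : ℤ) : ∃ t, pos2 t ≤ i ∧ t ≤ i :=
  ⟨min 0 i, by have := pos2_le (min_le_left 0 i); omega, by omega⟩

lemma eq_of_Ag {c c' : Cc} (h : ∀ t, Ag t c c') : c = c' := by
  apply Subtype.ext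
  apply Prod.ext
  · funext i
    obtain ⟨t, ht, -⟩ := exists_pos2_le i
    exact (h t).1 i ht
  · funext i
    exact (h i).2 i le_rfl

/-- branching at every level -/
lemma exists_branch (t : ℤ) (c : Cc) : ∃ c', Ag (t + 1) c c' ∧ ¬ Ag t c c' := by
  classical
  obtain ⟨N, hN⟩ := c.2
  refine ⟨⟨(c.1.1, Function.update c.1.2 t (c.1.2 t + 1)), max N (t + 1), fun i hi => ?_⟩,
    ⟨fun _ _ => rfl, fun i hi => ?_⟩, fun h => ?_⟩
  · refine ⟨(hN i (by omega)).1, ?_⟩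
    show Function.update c.1.2 t (c.1.2 t + 1) i = 0
    rw [Function.update_of_ne (by omega)]
    exact (hN i (by omega)).2
  · show c.1.2 i = Function.update c.1.2 t (c.1.2 t + 1) i
    rw [Function.update_of_ne (by omega)]
  · have h2 : c.1.2 t = Function.update c.1.2 t (c.1.2 t + 1) t := h.2 t le_rfl
    rw [Function.update_self] at h2
    have h3 : (0 : ZMod 3) = 1 := add_left_cancel (a := c.1.2 t) (by rw [add_zero]; exact h2)
    exact absurd h3 (by decide)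

lemma le_of_block_subset {t t' : ℤ} {c : Cc} (h : ∀ c', Ag t c c' → Ag t' c c') : t ≤ t' := by
  by_contra hlt
  obtain ⟨c', h1, h2⟩ := exists_branch t' c
  exact h2 (h c' (h1.mono (by omega)))

/-- completeness -/
lemma exists_limit {ι : Type} (k : ι → ℤ) (c : ι → Cc)
    (hc : ∀ p q, Ag (max (k p) (k q)) (c p) (c q)) (hk : ∀ n : ℤ, ∃ p, k p ≤ n) :
    ∃ c', ∀ p, Ag (k p) c' (c p) := by
  have h1 : ∀ i : ℤ, ∃ p, pos2 (k p) ≤ i ∧ k p ≤ i := by
    intro i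
    obtain ⟨t, ht, ht'⟩ := exists_pos2_le i
    obtain ⟨p, hp⟩ := hk t
    exact ⟨p, le_trans (pos2_mono hp) ht, le_trans hp ht'⟩
  choose P hP using h1
  have key1 : ∀ p i, pos2 (k p) ≤ i → (c (P i)).1.1 i = (c p).1.1 i := by
    intro p i hi
    apply (hc (P i) p).1 i
    rcases le_total (k (P i)) (k p) with h | h
    · rw [max_eq_right h]; exact hi
    · rw [max_eq_left h]; exact (hP i).1
  have key2 : ∀ p i, k p ≤ i → (c (P i)).1.2 i = (c p).1.2 i := by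
    intro p i hi
    apply (hc (P i) p).2 i
    exact max_le (hP i).2 hi
  obtain ⟨p0, -⟩ := hk 0
  obtain ⟨N, hN⟩ := (c p0).2
  refine ⟨⟨(fun i => (c (P i)).1.1 i, fun i => (c (P i)).1.2 i),
    max N (max (pos2 (k p0)) (k p0)), fun i hi => ⟨?_, ?_⟩⟩, fun p => ⟨fun i hi => ?_, fun i hi => ?_⟩⟩
  · show (c (P i)).1.1 i = 0
    rw [key1 p0 i (by omega)]; exact (hN i (by omega)).1
  · show (c (P i)).1.2 i = 0
    rw [key2 p0 i (by omega)]; exact (hN i (by omega)).2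
  · exact key1 p i hi
  · exact key2 p i hi

lemma Ag.add_right {t : ℤ} {c c' : Cc} (e : Cc) (h : Ag t c c') : Ag t (c + e) (c' + e) := by
  refine ⟨fun i hi => ?_, fun i hi => ?_⟩
  · show c.1.1 i + e.1.1 i = c'.1.1 i + e.1.1 i
    rw [h.1 i hi]
  · show c.1.2 i + e.1.2 i = c'.1.2 i + e.1.2 i
    rw [h.2 i hi]

lemma Ag.of_add_right {t : ℤ} {c c' e : Cc} (h : Ag t (c + e) (c' + e)) : Ag t c c' := by
  have := h.add_right (-e)
  simpa using this

/-- shifting digits -/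
def sh (p q : ℤ) (c : Cc) : Cc :=
  ⟨(fun i => c.1.1 (i - p), fun i => c.1.2 (i - q)), by
    obtain ⟨N, hN⟩ := c.2
    exact ⟨N + max p q, fun i hi => ⟨(hN _ (by omega)).1, (hN _ (by omega)).2⟩⟩⟩

lemma sh_sh (p q : ℤ) (c : Cc) : sh p q (sh (-p) (-q) c) = c := by
  apply Subtype.ext
  apply Prod.ext
  · funext i; show c.1.1 (i - p - -p) = c.1.1 i; rw [show i - p - -p = i by ring]
  · funext i; show c.1.2 (i - q - -q) = c.1.2 i; rw [show i - q - -q = i by ring]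

lemma Ag.shift {t : ℤ} {c c' : Cc} (s : ℤ) (h : Ag t c c') :
    Ag (t + s) (sh (pos2 s) s c) (sh (pos2 s) s c') := by
  refine ⟨fun i hi => h.1 _ ?_, fun i hi => h.2 _ (by omega)⟩
  have := pos2_add_ge t s
  omega

lemma Ag.of_shift {t s : ℤ} {c c' : Cc} (h : Ag (t + s) (sh (pos2 s) s c) (sh (pos2 s) s c')) :
    Ag (t + 1) c c' := by
  refine ⟨fun i hi => ?_, fun i hi => ?_⟩
  · have h1 := pos2_add_le t s
    have h2 := pos2_succ t
    have h3 : c.1.1 (i + pos2 s - pos2 s) = c'.1.1 (i + pos2 s - pos2 s) := h.1 (i + pos2 s) (by omega)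
    simpa using h3
  · have h3 : c.1.2 (i + s - s) = c'.1.2 (i + s - s) := h.2 (i + s) (by omega)
    simpa using h3

/-- truncation of the digits below level `t` -/
noncomputable def trunc (t : ℤ) (c : Cc) : Cc :=
  ⟨(fun i => if pos2 t ≤ i then c.1.1 i else 0, fun i => if t ≤ i then c.1.2 i else 0), by
    obtain ⟨N, hN⟩ := c.2
    refine ⟨N, fun i hi => ⟨?_, ?_⟩⟩
    · show (if pos2 t ≤ i then c.1.1 i else 0) = 0
      rw [(hN i hi).1]; simp
    · show (if t ≤ i then c.1.2 i else 0) = 0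
      rw [(hN i hi).2]; simp⟩

lemma Ag_trunc (t : ℤ) (c : Cc) : Ag t c (trunc t c) := by
  refine ⟨fun i hi => ?_, fun i hi => ?_⟩
  · show _ = (if pos2 t ≤ i then c.1.1 i else 0)
    rw [if_pos hi]
  · show _ = (if t ≤ i then c.1.2 i else 0)
    rw [if_pos hi]

lemma trunc_eq_of_Ag {t : ℤ} {c c' : Cc} (h : Ag t c c') : trunc t c = trunc t c' := by
  apply Subtype.ext
  apply Prod.ext
  · funext i
    show (if pos2 t ≤ i then c.1.1 i else 0) = (if pos2 t ≤ i then c'.1.1 i else 0)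
    split_ifs with hi
    · exact h.1 i hi
    · rfl
  · funext i
    show (if t ≤ i then c.1.2 i else 0) = (if t ≤ i then c'.1.2 i else 0)
    split_ifs with hi
    · exact h.2 i hi
    · rfl

/-- the level `t` partition -/
def lev (t : ℤ) : Setoid Cc := ⟨Ag t, ⟨Ag.refl t, Ag.symm, Ag.trans⟩⟩

/-- number of level `t` blocks in a level `t'` block -/
noncomputable def nb (t t' : ℤ) : ℕ := 2 ^ (pos2 t' - pos2 t).toNat * 3 ^ (t' - t).toNat

lemma card_blocks {t t' : ℤ} (h : t ≤ t') (c : Cc) :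
    (Quotient.mk (lev t) '' {c' | Ag t' c c'}).Finite ∧
      (Quotient.mk (lev t) '' {c' | Ag t' c c'}).ncard = nb t t' := by
  classical
  obtain ⟨N, hN⟩ := c.2
  have hp := pos2_mono h
  let I := (↥(Finset.Ico (pos2 t) (pos2 t')) → ZMod 2) × (↥(Finset.Ico t t') → ZMod 3)
  let g : I → Cc := fun d =>
    ⟨(fun i => if hi : i ∈ Finset.Ico (pos2 t) (pos2 t') then d.1 ⟨i, hi⟩ else c.1.1 i,
      fun i => if hi : i ∈ Finset.Ico t t' then d.2 ⟨i, hi⟩ else c.1.2 i),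
      max N (max (pos2 t') t'), fun i hi => ⟨by
        show (if hi : i ∈ Finset.Ico (pos2 t) (pos2 t') then d.1 ⟨i, hi⟩ else c.1.1 i) = 0
        rw [dif_neg (by rw [Finset.mem_Ico]; omega)]
        exact (hN i (by omega)).1, by
        show (if hi : i ∈ Finset.Ico t t' then d.2 ⟨i, hi⟩ else c.1.2 i) = 0
        rw [dif_neg (by rw [Finset.mem_Ico]; omega)]
        exact (hN i (by omega)).2⟩⟩
  have g1 : ∀ d i, (g d).1.1 i =
      if hi : i ∈ Finset.Ico (pos2 t) (pos2 t') then d.1 ⟨i, hi⟩ else c.1.1 i := fun _ _ => rfl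
  have g2 : ∀ d i, (g d).1.2 i =
      if hi : i ∈ Finset.Ico t t' then d.2 ⟨i, hi⟩ else c.1.2 i := fun _ _ => rfl
  have hrange : Quotient.mk (lev t) '' {c' | Ag t' c c'} = Set.range (Quotient.mk (lev t) ∘ g) := by
    ext q
    constructor
    · rintro ⟨c', hc', rfl⟩
      refine ⟨(fun i => c'.1.1 i.1, fun i => c'.1.2 i.1), Quotient.sound ⟨fun i hi => ?_, fun i hi => ?_⟩⟩
      · rw [g1]
        split_ifs with h1
        · rfl
        · rw [Finset.mem_Ico] at h1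
          exact hc'.1 i (by omega)
      · rw [g2]
        split_ifs with h1
        · rfl
        · rw [Finset.mem_Ico] at h1
          exact hc'.2 i (by omega)
    · rintro ⟨d, rfl⟩
      refine ⟨g d, ⟨fun i hi => ?_, fun i hi => ?_⟩, rfl⟩
      · rw [g1, dif_neg (by rw [Finset.mem_Ico]; omega)]
      · rw [g2, dif_neg (by rw [Finset.mem_Ico]; omega)]
  have hinj : Function.Injective (Quotient.mk (lev t) ∘ g) := by
    intro d d' hd
    have h1 : Ag t (g d) (g d') := Quotient.exact hd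
    apply Prod.ext
    · funext i
      have := h1.1 i.1 (Finset.mem_Ico.1 i.2).1
      rw [g1, g1, dif_pos i.2, dif_pos i.2] at this
      exact this
    · funext i
      have := h1.2 i.1 (Finset.mem_Ico.1 i.2).1
      rw [g2, g2, dif_pos i.2, dif_pos i.2] at this
      exact this
  rw [hrange]
  refine ⟨Set.finite_range _, ?_⟩
  rw [Set.ncard_range_of_injective hinj]
  rw [Nat.card_eq_fintype_card]
  simp only [I, nb, Fintype.card_prod, Fintype.card_fun, Fintype.card_coe, ZMod.card, Int.card_Ico]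

lemma nb_le (t : ℤ) (d : ℕ) : nb (t - d) t ≤ 2 ^ (2 * d + 1) * 3 ^ d := by
  unfold nb
  have h1 := pos2_add_le (t - d) d
  have h2 : pos2 d ≤ 2 * d := by
    unfold pos2
    have h3 : Real.sqrt 2 * ((d : ℤ) : ℝ) ≤ ((2 * d : ℤ) : ℝ) := by
      push_cast
      have := sqrt2_lt_two
      have : (0 : ℝ) ≤ d := Nat.cast_nonneg d
      nlinarith
    have := Int.floor_le_floor h3
    rwa [Int.floor_intCast] at this
  have h3 : t - d + d = t := by ring
  rw [h3] at h1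
  have h4 : (t - (t - d)).toNat = d := by omega
  rw [h4]
  apply Nat.mul_le_mul_right
  apply Nat.pow_le_pow_right (by norm_num)
  omega

end Pool.Agent.MP_8f2dc9_al

end

-- part MP_8f2dc9_al.Model
section

/-!
The hyperbolic model space: leaves times a real coordinate times a height, with an explicit
integer valued coarse metric, and half of the Morse lemma for it.
-/

namespace Pool.Agent.MP_8f2dc9_al

/-- points of the model -/
structure Pt where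
  c : Cc
  x : ℝ
  t : ℤ

/-- `u` and `v` are joined at height `k` -/
def JJ (u v : Pt) (k : ℤ) : Prop :=
  u.t ≤ k ∧ v.t ≤ k ∧ Ag k u.c v.c ∧ |u.x - v.x| ≤ (2 : ℝ) ^ k

lemma two_zpow_mono {k k' : ℤ} (h : k ≤ k') : (2 : ℝ) ^ k ≤ 2 ^ k' :=
  zpow_le_zpow_right₀ (by norm_num) h

lemma two_zpow_succ (k : ℤ) : (2 : ℝ) ^ (k + 1) = 2 * 2 ^ k := by
  rw [zpow_add_one₀ (by norm_num)]; ring

lemma two_zpow_pos (k : ℤ) : (0 : ℝ) < 2 ^ k := by positivity

lemma exists_two_zpow (y : ℝ) : ∃ k : ℤ, y ≤ 2 ^ k := by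
  obtain ⟨n, hn⟩ := pow_unbounded_of_one_lt y (show (1 : ℝ) < 2 by norm_num)
  exact ⟨n, by rw [zpow_natCast]; exact hn.le⟩

lemma JJ.mono {u v : Pt} {k k' : ℤ} (h : JJ u v k) (hk : k ≤ k') : JJ u v k' :=
  ⟨h.1.trans hk, h.2.1.trans hk, h.2.2.1.mono hk, h.2.2.2.trans (two_zpow_mono hk)⟩

lemma JJ.symm {u v : Pt} {k : ℤ} (h : JJ u v k) : JJ v u k :=
  ⟨h.2.1, h.1, h.2.2.1.symm, by rw [abs_sub_comm]; exact h.2.2.2⟩

lemma exists_mj (u v : Pt) : ∃ m, JJ u v m ∧ ∀ k, JJ u v k → m ≤ k := by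
  apply Int.exists_least_of_bdd ⟨u.t, fun k hk => hk.1⟩
  obtain ⟨t, ht⟩ := exists_Ag u.c v.c
  obtain ⟨k, hk⟩ := exists_two_zpow |u.x - v.x|
  exact ⟨max (max u.t v.t) (max t k), by omega, by omega, ht.mono (by omega),
    hk.trans (two_zpow_mono (by omega))⟩

/-- the join height -/
noncomputable def mj (u v : Pt) : ℤ := (exists_mj u v).choose

lemma JJ_mj (u v : Pt) : JJ u v (mj u v) := (exists_mj u v).choose_spec.1

lemma mj_le {u v : Pt} {k : ℤ} (h : JJ u v k) : mj u v ≤ k := (exists_mj u v).choose_spec.2 k h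

lemma JJ_of_le {u v : Pt} {k : ℤ} (h : mj u v ≤ k) : JJ u v k := (JJ_mj u v).mono h

lemma mj_comm (u v : Pt) : mj u v = mj v u :=
  le_antisymm (mj_le (JJ_mj v u).symm) (mj_le (JJ_mj u v).symm)

lemma le_mj_left (u v : Pt) : u.t ≤ mj u v := (JJ_mj u v).1

lemma le_mj_right (u v : Pt) : v.t ≤ mj u v := (JJ_mj u v).2.1

lemma mj_self (u : Pt) : mj u u = u.t :=
  le_antisymm (mj_le ⟨le_rfl, le_rfl, Ag.refl _ _, by simpa using (two_zpow_pos _).le⟩)
    (le_mj_left u u)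

lemma mj_ultra (u v w : Pt) : mj u w ≤ max (mj u v) (mj v w) + 1 := by
  have h1 : JJ u v (max (mj u v) (mj v w)) := JJ_of_le (le_max_left _ _)
  have h2 : JJ v w (max (mj u v) (mj v w)) := JJ_of_le (le_max_right _ _)
  apply mj_le
  refine ⟨by have := h1.1; omega, by have := h2.2.1; omega,
    (h1.2.2.1.trans h2.2.2.1).mono (by omega), ?_⟩
  rw [two_zpow_succ]
  have := abs_sub_le u.x v.x w.x
  have := h1.2.2.2
  have := h2.2.2.2
  linarith

lemma Ag_mj (u v : Pt) : Ag (mj u v) u.c v.c := (JJ_mj u v).2.2.1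

/-- the coarse distance -/
noncomputable def DD (u v : Pt) : ℤ := 2 * mj u v - u.t - v.t

/-- the Gromov product of `u` and `v` at `w` -/
noncomputable def gp (u v w : Pt) : ℤ := mj u w + mj v w - mj u v - w.t

lemma DD_nonneg (u v : Pt) : 0 ≤ DD u v := by
  have := le_mj_left u v
  have := le_mj_right u v
  unfold DD; omega

lemma DD_comm (u v : Pt) : DD u v = DD v u := by
  unfold DD; rw [mj_comm]; ring

lemma DD_self (u : Pt) : DD u u = 0 := by
  unfold DD; rw [mj_self]; ring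

lemma DD_tri (u v w : Pt) : DD u w ≤ DD u v + DD v w + 2 := by
  have := mj_ultra u v w
  have := le_mj_right u v
  have := le_mj_left v w
  unfold DD; omega

lemma mj_le_DD (u v : Pt) : mj u v ≤ u.t + DD u v := by
  have := le_mj_right u v
  unfold DD; omega

lemma t_le_DD (u v : Pt) : v.t ≤ u.t + DD u v := (le_mj_right u v).trans (mj_le_DD u v)

lemma t_le_DD' (u v : Pt) : u.t ≤ v.t + DD u v := by
  rw [DD_comm]; exact t_le_DD v u

lemma gp_eq (u v w : Pt) : 2 * gp u v w = DD u w + DD v w - DD u v := by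
  unfold gp DD; ring

lemma gp_comm (u v w : Pt) : gp u v w = gp v u w := by
  unfold gp; rw [mj_comm u v]; ring

lemma gp_four (u v y w : Pt) : min (gp u y w) (gp y v w) - 2 ≤ gp u v w := by
  have h1 := mj_ultra u y v
  have h2 := mj_ultra u w v
  have h3 := mj_ultra y v w
  have h4 := mj_ultra y u w
  rw [mj_comm w v] at h2
  rw [mj_comm y u] at h4
  unfold gp
  omega

/-- the point at height `k` on the vertical line of `u` -/
def vert (u : Pt) (k : ℤ) : Pt := ⟨u.c, u.x, k⟩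

@[simp] lemma vert_t (u : Pt) (k : ℤ) : (vert u k).t = k := rfl

lemma vert_self (u : Pt) : vert u u.t = u := rfl

lemma mj_vert {u : Pt} {k : ℤ} (h : u.t ≤ k) (w : Pt) : mj (vert u k) w = max k (mj u w) := by
  apply le_antisymm
  · have h1 : JJ u w (max k (mj u w)) := JJ_of_le (le_max_right _ _)
    exact mj_le ⟨le_max_left _ _, h1.2⟩
  · have h1 := JJ_mj (vert u k) w
    exact max_le h1.1 (mj_le ⟨h.trans h1.1, h1.2⟩)

lemma mj_vert' {u : Pt} {k : ℤ} (h : u.t ≤ k) (w : Pt) : mj w (vert u k) = max k (mj u w) := by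
  rw [mj_comm, mj_vert h]

lemma exists_geodesic (u v : Pt) : ∃ γ : ℤ → Pt, γ 0 = u ∧ γ (DD u v + 1) = v ∧
    (∀ i j, 0 ≤ i → i ≤ j → j ≤ DD u v + 1 →
      j - i - 1 ≤ DD (γ i) (γ j) ∧ DD (γ i) (γ j) ≤ j - i) ∧
    ∀ w, ∃ i, 0 ≤ i ∧ i ≤ DD u v + 1 ∧ DD w (γ i) ≤ gp u v w + 1 := by
  have hu := le_mj_left u v
  have hv := le_mj_right u v
  have hD : DD u v = 2 * mj u v - u.t - v.t := rfl
  refine ⟨fun i => if i ≤ mj u v - u.t then vert u (u.t + i) else vert v (2 * mj u v + 1 - u.t - i),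
    ?_, ?_, ?_, ?_⟩
  · simp only
    rw [if_pos (by omega), add_zero, vert_self]
  · simp only
    rw [if_neg (by omega), show 2 * mj u v + 1 - u.t - (DD u v + 1) = v.t by omega, vert_self]
  · intro i j hi hij hj
    simp only
    split_ifs with h1 h2 h2
    · unfold DD
      rw [mj_vert (by omega), mj_vert' (by omega), mj_self, vert_t, vert_t]
      omega
    · unfold DD
      rw [mj_vert (by omega), mj_vert' (by omega), mj_comm v u, vert_t, vert_t]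
      omega
    · omega
    · unfold DD
      rw [mj_vert (by omega), mj_vert' (by omega), mj_self, vert_t, vert_t]
      omega
  · intro w
    have h1 := mj_ultra u w v
    rw [mj_comm w v] at h1
    have h2 := le_mj_left u w
    have h3 := le_mj_left v w
    rcases le_total (mj u w) (mj v w) with h | h
    · refine ⟨min (mj u w) (mj u v) - u.t, by omega, by omega, ?_⟩
      simp only
      rw [if_pos (by omega)]
      unfold DD gp
      rw [mj_vert' (by omega), vert_t]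
      omega
    · refine ⟨2 * mj u v + 1 - u.t - min (mj v w) (mj u v), by omega, by omega, ?_⟩
      simp only
      rw [if_neg (by omega)]
      unfold DD gp
      rw [mj_vert' (by omega), vert_t]
      omega

lemma gp_chain (z : ℤ → Pt) (w : Pt) (r : ℤ) (e : ℕ) : ∀ a b : ℤ, a < b → b - a ≤ 2 ^ e →
    (∀ i, a ≤ i → i < b → r ≤ gp (z i) (z (i + 1)) w) → r - 2 * e ≤ gp (z a) (z b) w := by
  induction e with
  | zero =>
    intro a b hab hb h
    have : b = a + 1 := by rw [pow_zero] at hb; omega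
    rw [this]
    simpa using h a le_rfl hab
  | succ e ih =>
    intro a b hab hb h
    have hp : (0 : ℤ) < 2 ^ e := by positivity
    rw [pow_succ] at hb
    push_cast
    by_cases hc : b - a ≤ 2 ^ e
    · have := ih a b hab hc h
      omega
    · have h1 := ih a (a + 2 ^ e) (by omega) (by omega) (fun i hi hi' => h i hi (by omega))
      have h2 := ih (a + 2 ^ e) b (by omega) (by omega) (fun i hi hi' => h i (by omega) hi')
      have := gp_four (z a) (z b) (z (a + 2 ^ e)) w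
      omega

lemma exists_log (S : ℤ) (hS : 0 ≤ S) : ∃ M : ℤ, ∀ R, M < R →
    ∃ e : ℕ, S * (6 * R + 10) + S ≤ 2 ^ e ∧ S + 2 * e + 6 ≤ R := by
  obtain ⟨s, rfl⟩ := Int.eq_ofNat_of_zero_le hS
  have key : ∀ e : ℕ, 4 ≤ e → e ^ 2 ≤ 2 ^ e := by
    intro e he
    induction e, he using Nat.le_induction with
    | base => norm_num
    | succ e he ih => rw [pow_succ 2 e]; nlinarith
  refine ⟨s + 8 + 2 * (6 * s * s + 70 * s + 4), fun R hR => ?_⟩
  obtain ⟨e, he⟩ : ∃ e : ℕ, (e : ℤ) = (R - s - 6) / 2 := ⟨((R - s - 6) / 2).toNat, by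
    have : (0 : ℤ) ≤ 6 * s * s := by positivity
    omega⟩
  have h0 : (0 : ℤ) ≤ 6 * s * s := by positivity
  have h1 : (6 * s * s + 70 * s + 4 : ℤ) ≤ e := by omega
  have h2 : R ≤ 2 * e + s + 7 := by omega
  refine ⟨e, ?_, by omega⟩
  have h3 : ((e ^ 2 : ℕ) : ℤ) ≤ ((2 ^ e : ℕ) : ℤ) := by exact_mod_cast key e (by omega)
  push_cast at h3
  have h4 : (s : ℤ) * (6 * R + 10) ≤ s * (6 * (2 * e + s + 7) + 10) :=
    mul_le_mul_of_nonneg_left (by omega) hS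
  have h5 : (1 : ℤ) ≤ e := by omega
  nlinarith [mul_le_mul_of_nonneg_left h1 (show (0 : ℤ) ≤ e by omega),
    mul_le_mul_of_nonneg_left h5 h0, mul_le_mul_of_nonneg_left h5 hS]

lemma morse (S : ℤ) (hS : 0 ≤ S) : ∃ M : ℤ, ∀ (z : ℤ → Pt) (n : ℤ), 0 ≤ n →
    (∀ i, 0 ≤ i → i < n → DD (z i) (z (i + 1)) ≤ S) →
    (∀ i j, 0 ≤ i → i ≤ j → j ≤ n → j - i ≤ S * DD (z i) (z j) + S) →
    ∀ w, ∃ i, 0 ≤ i ∧ i ≤ n ∧ DD w (z i) ≤ gp (z 0) (z n) w + M := by
  obtain ⟨M, hM⟩ := exists_log S hS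
  refine ⟨M + 3, fun z n hn hstep hlow w => ?_⟩
  obtain ⟨γ, g0, gN, gd, gw⟩ := exists_geodesic (z 0) (z n)
  have hN := DD_nonneg (z 0) (z n)
  generalize DD (z 0) (z n) + 1 = N at gN gd gw
  have hN0 : 0 ≤ N := by
    obtain ⟨i, h1, h2, -⟩ := gw w
    omega
  have hnear : ∀ j, ∃ i, 0 ≤ i ∧ i ≤ n ∧ ∀ i', 0 ≤ i' → i' ≤ n →
      DD (γ j) (z i) ≤ DD (γ j) (z i') := by
    intro j
    obtain ⟨i, hi, hmin⟩ := Finset.exists_min_image (Finset.Icc 0 n) (fun i => DD (γ j) (z i))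
      ⟨0, Finset.mem_Icc.2 ⟨le_rfl, hn⟩⟩
    rw [Finset.mem_Icc] at hi
    exact ⟨i, hi.1, hi.2, fun i' h1 h2 => hmin i' (Finset.mem_Icc.2 ⟨h1, h2⟩)⟩
  choose I hI0 hIn hImin using hnear
  obtain ⟨j0, hj0, hmax⟩ := Finset.exists_max_image (Finset.Icc 0 N) (fun j => DD (γ j) (z (I j)))
    ⟨0, Finset.mem_Icc.2 ⟨le_rfl, hN0⟩⟩
  rw [Finset.mem_Icc] at hj0
  have hmax' : ∀ j, 0 ≤ j → j ≤ N → DD (γ j) (z (I j)) ≤ DD (γ j0) (z (I j0)) :=
    fun j h1 h2 => hmax j (Finset.mem_Icc.2 ⟨h1, h2⟩)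
  have hfar : ∀ i, 0 ≤ i → i ≤ n → DD (γ j0) (z (I j0)) ≤ DD (z i) (γ j0) := by
    intro i h1 h2
    rw [DD_comm (z i)]
    exact hImin j0 i h1 h2
  have hR0 := DD_nonneg (γ j0) (z (I j0))
  generalize DD (γ j0) (z (I j0)) = R at hmax' hfar hR0
  have hRM : R ≤ M := by
    by_contra hcon
    obtain ⟨e, he1, he2⟩ := hM R (by omega)
    have p1 : ∃ j1 i1, 0 ≤ j1 ∧ j1 ≤ j0 ∧ j0 - 2 * R - 3 ≤ j1 ∧ 0 ≤ i1 ∧ i1 ≤ n ∧
        DD (γ j1) (z i1) ≤ R ∧ R ≤ gp (γ j1) (z i1) (γ j0) := by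
      by_cases hc : 0 ≤ j0 - 2 * R - 3
      · refine ⟨j0 - 2 * R - 3, I (j0 - 2 * R - 3), hc, by omega, le_rfl, hI0 _, hIn _,
          hmax' _ hc (by omega), ?_⟩
        have a1 := gp_eq (γ (j0 - 2 * R - 3)) (z (I (j0 - 2 * R - 3))) (γ j0)
        have a2 := (gd (j0 - 2 * R - 3) j0 hc (by omega) hj0.2).1
        have a3 := hmax' _ hc (by omega)
        have a4 := hfar _ (hI0 (j0 - 2 * R - 3)) (hIn _)
        omega
      · refine ⟨0, 0, le_rfl, hj0.1, by omega, le_rfl, hn, by rw [g0, DD_self]; exact hR0, ?_⟩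
        have a1 := gp_eq (γ 0) (z 0) (γ j0)
        have a4 := hfar 0 le_rfl hn
        rw [g0, DD_self] at a1
        rw [g0]
        omega
    have p2 : ∃ j2 i2, j2 ≤ N ∧ j0 ≤ j2 ∧ j2 ≤ j0 + 2 * R + 3 ∧ 0 ≤ i2 ∧ i2 ≤ n ∧
        DD (γ j2) (z i2) ≤ R ∧ R ≤ gp (γ j2) (z i2) (γ j0) := by
      by_cases hc : j0 + 2 * R + 3 ≤ N
      · refine ⟨j0 + 2 * R + 3, I (j0 + 2 * R + 3), hc, by omega, le_rfl, hI0 _, hIn _,
          hmax' _ (by omega) hc, ?_⟩
        have a1 := gp_eq (γ (j0 + 2 * R + 3)) (z (I (j0 + 2 * R + 3))) (γ j0)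
        have a2 := (gd j0 (j0 + 2 * R + 3) hj0.1 (by omega) hc).1
        have a3 := hmax' _ (by omega) hc
        have a4 := hfar _ (hI0 (j0 + 2 * R + 3)) (hIn _)
        rw [DD_comm] at a2
        omega
      · refine ⟨N, n, le_rfl, hj0.2, by omega, hn, le_rfl, by rw [gN, DD_self]; exact hR0, ?_⟩
        have a1 := gp_eq (γ N) (z n) (γ j0)
        have a4 := hfar n hn le_rfl
        rw [gN, DD_self] at a1
        rw [gN]
        omega
    obtain ⟨j1, i1, b1, b2, b3, b4, b5, b6, b7⟩ := p1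
    obtain ⟨j2, i2, c1, c2, c3, c4, c5, c6, c7⟩ := p2
    have d1 := gd j1 j2 b1 (by omega) c1
    have d2 := gd j1 j0 b1 b2 hj0.2
    have d3 := gd j0 j2 hj0.1 c2 c1
    have d4 : DD (z i1) (z i2) ≤ 6 * R + 10 := by
      have t1 := DD_tri (z i1) (γ j1) (z i2)
      have t2 := DD_tri (γ j1) (γ j2) (z i2)
      rw [DD_comm (z i1) (γ j1)] at t1
      omega
    have hch : ∀ i, 0 ≤ i → i < n → R - S ≤ gp (z i) (z (i + 1)) (γ j0) := by
      intro i h1 h2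
      have a1 := gp_eq (z i) (z (i + 1)) (γ j0)
      have a2 := hstep i h1 h2
      have a3 := hfar i h1 h2.le
      have a4 := hfar (i + 1) (by omega) (by omega)
      omega
    have d5 : R - S - 2 * e ≤ gp (z i1) (z i2) (γ j0) := by
      rcases lt_trichotomy i1 i2 with h | h | h
      · have := hlow i1 i2 b4 h.le c5
        have := mul_le_mul_of_nonneg_left d4 hS
        exact gp_chain z _ _ e i1 i2 h (by omega) (fun i h1 h2 => hch i (by omega) (by omega))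
      · have a1 := gp_eq (z i1) (z i1) (γ j0)
        have a3 := hfar i1 b4 b5
        rw [DD_self] at a1
        rw [← h]
        omega
      · have := hlow i2 i1 c4 h.le b5
        rw [DD_comm] at d4
        have := mul_le_mul_of_nonneg_left d4 hS
        rw [gp_comm]
        exact gp_chain z _ _ e i2 i1 h (by omega) (fun i h1 h2 => hch i (by omega) (by omega))
    have e1 := gp_four (γ j1) (z i2) (z i1) (γ j0)
    have e2 := gp_four (γ j1) (γ j2) (z i2) (γ j0)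
    have e3 := gp_eq (γ j1) (γ j2) (γ j0)
    rw [gp_comm (z i2) (γ j2)] at e2
    rw [DD_comm (γ j2) (γ j0)] at e3
    omega
  obtain ⟨j, h1, h2, h3⟩ := gw w
  refine ⟨I j, hI0 j, hIn j, ?_⟩
  have := DD_tri w (γ j) (z (I j))
  have := hmax' j h1 h2
  omega

/-- `B`-quasi-isometric embedding of the model -/
def QI (B : ℤ) (f : Pt → Pt) : Prop :=
  ∀ u v, DD (f u) (f v) ≤ B * DD u v + B ∧ DD u v ≤ B * DD (f u) (f v) + B

lemma QI.le {B : ℤ} {f : Pt → Pt} (hf : QI B f) (hB : 0 ≤ B) {u v : Pt} {k : ℤ}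
    (h : DD u v ≤ k) : DD (f u) (f v) ≤ B * k + B := by
  have := (hf u v).1
  have := mul_le_mul_of_nonneg_left h hB
  omega

lemma QI.ge {B : ℤ} {f : Pt → Pt} (hf : QI B f) (hB : 0 ≤ B) {u v : Pt} {k : ℤ}
    (h : DD (f u) (f v) ≤ k) : DD u v ≤ B * k + B := by
  have := (hf u v).2
  have := mul_le_mul_of_nonneg_left h hB
  omega

lemma gp_le_of_QI (B : ℤ) (hB : 0 ≤ B) : ∃ G : ℤ, ∀ f, QI B f → ∀ u v w,
    gp u v w ≤ B * gp (f u) (f v) (f w) + G := by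
  obtain ⟨M, hM⟩ := morse (2 * B + 1) (by omega)
  refine ⟨B * M + B + 2, fun f hf u v w => ?_⟩
  obtain ⟨γ, g0, gN, gd, -⟩ := exists_geodesic u v
  have hD := DD_nonneg u v
  obtain ⟨i, h1, h2, h3⟩ := hM (fun i => f (γ i)) (DD u v + 1) (by omega)
    (fun i hi hi' => by
      have := hf.le hB (gd i (i + 1) hi (by omega) (by omega)).2
      rw [show i + 1 - i = 1 by ring] at this
      omega)
    (fun i j hi hij hj => by
      have a1 := (gd i j hi hij hj).1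
      have a2 := (hf (γ i) (γ j)).2
      have a3 := DD_nonneg (f (γ i)) (f (γ j))
      have a4 := mul_nonneg hB a3
      nlinarith) (f w)
  simp only [g0, gN] at h3
  have a1 := hf.ge hB h3
  have a2 := gp_eq u v w
  have a3 := DD_tri u (γ i) w
  have a4 := DD_tri v (γ i) w
  have a5 := (gd 0 i le_rfl h1 h2).2
  have a6 := (gd i _ h1 h2 le_rfl).2
  rw [g0] at a5
  rw [gN, DD_comm] at a6
  rw [DD_comm] at a1
  rw [mul_add] at a1
  omega

end Pool.Agent.MP_8f2dc9_al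

end

-- part MP_8f2dc9_al.Leaf
section

/-!
Quasi-isometries of the model send leaves close to leaves.
-/

namespace Pool.Agent.MP_8f2dc9_al

/-- a quasi-isometry with a quasi-inverse -/
structure QIso (B : ℤ) (f f' : Pt → Pt) : Prop where
  qi : QI B f
  qi' : QI B f'
  left : ∀ u, DD (f' (f u)) u ≤ B
  right : ∀ u, DD (f (f' u)) u ≤ B

lemma gp_lip {u v w u' v' w' : Pt} {b : ℤ} (hu : DD u u' ≤ b) (hv : DD v v' ≤ b)
    (hw : DD w w' ≤ b) : gp u v w ≤ gp u' v' w' + 3 * b + 6 := by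
  have a1 := gp_eq u v w
  have a2 := gp_eq u' v' w'
  have a3 := DD_tri u u' w
  have a4 := DD_tri u' w' w
  have a5 := DD_tri v v' w
  have a6 := DD_tri v' w' w
  have a7 := DD_tri u' u v'
  have a8 := DD_tri u v v'
  rw [DD_comm w' w] at a4 a6
  rw [DD_comm u' u] at a7
  omega

lemma gp_two (B : ℤ) (hB : 0 ≤ B) : ∃ G : ℤ, 0 ≤ G ∧ ∀ f f', QIso B f f' → ∀ u v w,
    gp u v w ≤ B * gp (f u) (f v) (f w) + G ∧ gp (f u) (f v) (f w) ≤ B * gp u v w + G := by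
  obtain ⟨G, hG⟩ := gp_le_of_QI B hB
  have h0 : 0 ≤ B * (3 * B + 6) := by positivity
  refine ⟨max 0 G + B * (3 * B + 6), by omega, fun f f' h u v w => ⟨?_, ?_⟩⟩
  · have := hG f h.qi u v w
    omega
  · have a1 := hG f' h.qi' (f u) (f v) (f w)
    have a2 := gp_lip (h.left u) (h.left v) (h.left w)
    have a3 := mul_le_mul_of_nonneg_left a2 hB
    rw [show B * (gp u v w + 3 * B + 6) = B * gp u v w + B * (3 * B + 6) by ring] at a3
    omega

lemma lt_mj_of_lt {u v : Pt} {k : ℤ} (h : (2 : ℝ) ^ k < |u.x - v.x|) : k < mj u v := by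
  by_contra hc
  exact absurd (JJ_of_le (not_lt.1 hc)).2.2.2 (not_le.2 h)

lemma mj_le_DD' (u v : Pt) : mj u v ≤ v.t + DD u v := by
  rw [mj_comm, DD_comm]; exact mj_le_DD v u

lemma gp_ge_min (y y' w : Pt) : min (mj y w) (mj y' w) - w.t - 1 ≤ gp y y' w := by
  have := mj_ultra y w y'
  rw [mj_comm w y'] at this
  unfold gp
  omega

lemma DD_horiz (c : Cc) {x x' : ℝ} {j : ℤ} (h : |x - x'| ≤ 2 ^ (j + 1)) :
    DD ⟨c, x, j⟩ ⟨c, x', j⟩ ≤ 2 := by
  have : mj ⟨c, x, j⟩ ⟨c, x', j⟩ ≤ j + 1 :=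
    mj_le ⟨show j ≤ j + 1 by omega, show j ≤ j + 1 by omega, Ag.refl _ _, h⟩
  show 2 * mj ⟨c, x, j⟩ ⟨c, x', j⟩ - j - j ≤ 2
  omega

lemma mj_vertical (c : Cc) (x : ℝ) {j j' : ℤ} (h : j ≤ j') : mj ⟨c, x, j⟩ ⟨c, x, j'⟩ = j' :=
  le_antisymm (mj_le ⟨h, le_rfl, Ag.refl _ _, by simpa using (two_zpow_pos _).le⟩)
    (le_mj_right _ _)

lemma horiz_chain (P : ℝ → Prop) {δ x1 x2 : ℝ} (hδ : 0 < δ) (h12 : x1 ≤ x2)
    (h : ∀ x x', x1 ≤ x → x ≤ x' → x' ≤ x2 → x' - x ≤ δ → (P x ↔ P x')) : P x1 ↔ P x2 := by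
  have key : ∀ n : ℕ, ∀ x, x1 ≤ x → x ≤ x2 → x - x1 ≤ n * δ → (P x1 ↔ P x) := by
    intro n
    induction n with
    | zero =>
      intro x h1 h2 h3
      have : x = x1 := by simp at h3; linarith
      rw [this]
    | succ n ih =>
      intro x h1 h2 h3
      push_cast at h3
      have hn : (0 : ℝ) ≤ n * δ := by positivity
      rcases le_total x1 (x - δ) with hc | hc
      · exact (ih (x - δ) hc (by linarith) (by linarith)).trans
          (h _ _ hc (by linarith) h2 (by linarith))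
      · exact h _ _ le_rfl h1 h2 (by linarith)
  obtain ⟨n, hn⟩ := exists_nat_ge ((x2 - x1) / δ)
  rw [div_le_iff₀ hδ] at hn
  exact key n x2 h12 le_rfl hn

lemma vert_chain (P : ℤ → Prop) {j1 j2 : ℤ} (h12 : j1 ≤ j2)
    (h : ∀ j, j1 ≤ j → j < j2 → (P j ↔ P (j + 1))) : P j1 ↔ P j2 := by
  have key : ∀ n : ℕ, j1 + n ≤ j2 → (P j1 ↔ P (j1 + n)) := by
    intro n
    induction n with
    | zero => intro _; simp
    | succ n ih =>
      intro hn
      push_cast at hn ⊢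
      rw [← add_assoc]
      exact (ih (by omega)).trans (h _ (by omega) (by omega))
  have := key (j2 - j1).toNat (by omega)
  rwa [show j1 + ((j2 - j1).toNat : ℤ) = j2 by omega] at this

section
variable {B G : ℤ} {f : Pt → Pt} (hB : 0 ≤ B) (hf : QI B f)
  (hg : ∀ u v w, gp u v w ≤ B * gp (f u) (f v) (f w) + G ∧ gp (f u) (f v) (f w) ≤ B * gp u v w + G)
include hB hg

lemma good_ray (c : Cc) (x : ℝ) {t τ : ℤ} (hτ : τ ≤ t) :
    ∃ x', |x' - x| ≤ 2 ^ (t + 1) ∧ mj (f ⟨c, x', τ⟩) (f ⟨c, x, t⟩) ≤ (f ⟨c, x, t⟩).t + G + 1 := by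
  have hp := two_zpow_pos (t + 1)
  have a1 : mj ⟨c, x, τ⟩ ⟨c, x, t⟩ = t := mj_vertical c x hτ
  have a2 : mj ⟨c, x + 2 ^ (t + 1), τ⟩ ⟨c, x, t⟩ ≤ t + 1 :=
    mj_le ⟨show τ ≤ t + 1 by omega, show t ≤ t + 1 by omega, Ag.refl _ _, by
      show |x + 2 ^ (t + 1) - x| ≤ _
      rw [add_sub_cancel_left, abs_of_pos hp]⟩
  have a3 : t < mj ⟨c, x, τ⟩ ⟨c, x + 2 ^ (t + 1), τ⟩ := lt_mj_of_lt (by
    show _ < |x - (x + 2 ^ (t + 1))|
    rw [sub_add_cancel_left, abs_neg, abs_of_pos hp, two_zpow_succ]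
    have := two_zpow_pos t
    linarith)
  have a4 : gp ⟨c, x, τ⟩ ⟨c, x + 2 ^ (t + 1), τ⟩ ⟨c, x, t⟩ ≤ 0 := by
    show mj _ _ + mj _ _ - mj _ _ - t ≤ 0
    omega
  have a5 := (hg ⟨c, x, τ⟩ ⟨c, x + 2 ^ (t + 1), τ⟩ ⟨c, x, t⟩).2
  have a6 := mul_le_mul_of_nonneg_left a4 hB
  have a7 := gp_ge_min (f ⟨c, x, τ⟩) (f ⟨c, x + 2 ^ (t + 1), τ⟩) (f ⟨c, x, t⟩)
  by_cases hc : mj (f ⟨c, x, τ⟩) (f ⟨c, x, t⟩) ≤ (f ⟨c, x, t⟩).t + G + 1
  · exact ⟨x, by simpa using hp.le, hc⟩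
  · exact ⟨x + 2 ^ (t + 1), by rw [add_sub_cancel_left, abs_of_pos hp], by omega⟩

include hf

lemma exists_low (c : Cc) (k : ℤ) : ∃ x t, (f ⟨c, x, t⟩).t ≤ k := by
  obtain ⟨n, hn0, hn⟩ : ∃ n : ℤ, 0 ≤ n ∧ B * ((f ⟨c, 0, 0⟩).t + 2 * (G + 1) - k) + B < n :=
    ⟨max 0 (B * ((f ⟨c, 0, 0⟩).t + 2 * (G + 1) - k) + B + 1), by omega, by omega⟩
  obtain ⟨x', -, hx⟩ := good_ray hB hg c 0 (show -n ≤ 0 by omega)
  refine ⟨x', -n, ?_⟩
  by_contra hc
  have a1 : DD (f ⟨c, x', -n⟩) (f ⟨c, 0, 0⟩) ≤ (f ⟨c, 0, 0⟩).t + 2 * (G + 1) - k := by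
    unfold DD; omega
  have a2 := hf.ge hB a1
  have a3 : (0 : ℤ) ≤ -n + DD ⟨c, x', -n⟩ ⟨c, 0, 0⟩ := t_le_DD ⟨c, x', -n⟩ ⟨c, 0, 0⟩
  omega

lemma leaf_pair (c : Cc) (xp xq : ℝ) (tp tq : ℤ) :
    Ag (max (f ⟨c, xp, tp⟩).t (f ⟨c, xq, tq⟩).t + (G + 1)) (f ⟨c, xp, tp⟩).c (f ⟨c, xq, tq⟩).c := by
  by_contra hcon
  obtain ⟨k, hk⟩ : ∃ k, k = max (f ⟨c, xp, tp⟩).t (f ⟨c, xq, tq⟩).t + (G + 1) := ⟨_, rfl⟩
  rw [← hk] at hcon
  obtain ⟨p, hp⟩ : ∃ p : Pt, p = ⟨c, xp, tp⟩ := ⟨_, rfl⟩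
  obtain ⟨q, hq⟩ : ∃ q : Pt, q = ⟨c, xq, tq⟩ := ⟨_, rfl⟩
  have hpt : p.t = tp := by rw [hp]
  have hpx : p.x = xp := by rw [hp]
  have hpc : p.c = c := by rw [hp]
  let P : Pt → Prop := fun y => Ag k (f p).c (f y).c
  have step : ∀ y y', DD y y' ≤ 2 → (f y).t + 3 * B ≤ k → (P y ↔ P y') := by
    intro y y' h1 h2
    have a1 := hf.le hB h1
    have a2 := mj_le_DD (f y) (f y')
    have a3 : Ag k (f y).c (f y').c := (Ag_mj _ _).mono (by omega)
    exact ⟨fun h => h.trans a3, fun h => h.trans a3.symm⟩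
  obtain ⟨A1, hA1⟩ := exists_two_zpow (|xq - xp| + 2 ^ (tq + 1) + 2 ^ (tp + 1))
  obtain ⟨A, hA, hAt⟩ : ∃ A : ℤ, |xq - xp| + 2 ^ (tq + 1) + 2 ^ (tp + 1) ≤ (2 : ℝ) ^ A ∧ tp ≤ A :=
    ⟨max A1 tp, hA1.trans (two_zpow_mono (le_max_left _ _)), le_max_right _ _⟩
  obtain ⟨U0, hU1, hU2⟩ : ∃ U0 : ℤ, (f p).t + G + 1 ≤ U0 ∧
      max ((f q).t + G + 1) (mj (f q) (f p)) + 1 ≤ U0 := ⟨max _ _, le_max_left _ _, le_max_right _ _⟩
  obtain ⟨Γ0, hΓ0⟩ : ∃ Γ0, Γ0 = B * (U0 - (f p).t + 1) + G := ⟨_, rfl⟩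
  obtain ⟨Γ, hΓ1, hΓ2⟩ : ∃ Γ : ℤ, Γ0 + 2 * A + 2 - 2 * tp ≤ Γ ∧ A + 2 - tp ≤ Γ :=
    ⟨max _ _, le_max_left _ _, le_max_right _ _⟩
  obtain ⟨U, hU3, hU4⟩ : ∃ U : ℤ, B * Γ + G + (f p).t + 2 ≤ U ∧ U0 + 2 ≤ U :=
    ⟨max _ _, le_max_left _ _, le_max_right _ _⟩
  obtain ⟨κ, hκ⟩ : ∃ κ, κ = B * (2 * U - (k - 3 * B) - (f p).t) + B := ⟨_, rfl⟩
  obtain ⟨n, hn1, hn2, hn3, hn4, hn5⟩ : ∃ n : ℤ, κ < n + tp ∧ κ < n - tp ∧ A + 1 < n ∧ -n ≤ tp ∧
      -n ≤ tq := ⟨max (max (κ + 1 - tp) (κ + 1 + tp)) (max (A + 2) (max (-tp) (-tq))),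
        by omega, by omega, by omega, by omega, by omega⟩
  have hU : ∀ y, κ < DD y p → k < (f y).t + 3 * B → U ≤ mj (f y) (f p) := by
    intro y h1 h2
    by_contra hc
    have a1 : DD (f y) (f p) ≤ 2 * U - (k - 3 * B) - (f p).t := by unfold DD; omega
    have a2 := hf.ge hB a1
    omega
  have far1 : ∀ x, κ < DD ⟨c, x, -n⟩ p := by
    intro x
    have : p.t ≤ -n + DD ⟨c, x, -n⟩ p := t_le_DD ⟨c, x, -n⟩ p
    omega
  have big : ∀ x j, |x - xp| = 2 ^ n → n ≤ mj ⟨c, x, j⟩ p := by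
    intro x j hx
    have : n - 1 < mj ⟨c, x, j⟩ p := lt_mj_of_lt (by
      rw [hpx]
      show _ < |x - xp|
      have h1 := two_zpow_succ (n - 1)
      rw [sub_add_cancel] at h1
      have := two_zpow_pos (n - 1)
      linarith)
    omega
  have hpos := two_zpow_pos n
  have hAn : (2 : ℝ) ^ A ≤ 2 ^ n := two_zpow_mono (by omega)
  have main : ∀ lo hi : ℝ, lo ≤ hi → |lo - xp| ≤ 2 ^ A → |hi - xp| ≤ 2 ^ A →
      mj (f ⟨c, lo, -n⟩) (f p) ≤ U0 → mj (f ⟨c, hi, -n⟩) (f p) ≤ U0 →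
      (P ⟨c, lo, -n⟩ ↔ P ⟨c, hi, -n⟩) := by
    intro lo hi hlh hlo hhi glo ghi
    have hz : ∀ x1 x2 : ℝ, x1 ≤ x2 →
        (∀ x, x1 ≤ x → x ≤ x2 → ¬ k < (f ⟨c, x, -n⟩).t + 3 * B) →
        (P ⟨c, x1, -n⟩ ↔ P ⟨c, x2, -n⟩) := by
      intro x1 x2 h12 hlow
      refine horiz_chain (fun x => P ⟨c, x, -n⟩) (two_zpow_pos (-n + 1)) h12
        (fun x x' h1 h2 h3 h4 => step _ _ (DD_horiz c ?_) (not_lt.1 (hlow x h1 (h2.trans h3))))
      rw [abs_sub_comm, abs_of_nonneg (by linarith)]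
      exact h4
    by_cases hα : ∃ xa, lo ≤ xa ∧ xa ≤ hi ∧ k < (f ⟨c, xa, -n⟩).t + 3 * B
    swap
    · exact hz lo hi hlh (fun x h1 h2 h3 => hα ⟨x, h1, h2, h3⟩)
    obtain ⟨xa, ha1, ha2, ha3⟩ := hα
    rw [abs_le] at hlo hhi
    have ha4 := hU _ (far1 xa) ha3
    have ha5 : mj ⟨c, xa, -n⟩ p ≤ A := mj_le ⟨show -n ≤ A by omega, by omega, by
      rw [hpc]; exact Ag.refl _ _, by
      rw [hpx]
      show |xa - xp| ≤ _
      rw [abs_le]; constructor <;> linarith⟩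
    have hb : ∀ b, κ < DD b p → k < (f b).t + 3 * B →
        mj b p ≤ A + 1 ∧ mj ⟨c, xa, -n⟩ b ≤ 2 * A + 1 - tp - Γ := by
      intro b h1 h2
      have a1 := hU b h1 h2
      have a2 := gp_ge_min (f ⟨c, xa, -n⟩) (f b) (f p)
      have a3 := (hg ⟨c, xa, -n⟩ b p).2
      have a4 : Γ ≤ gp ⟨c, xa, -n⟩ b p := by
        by_contra hc
        have := mul_le_mul_of_nonneg_left (not_le.1 hc).le hB
        omega
      have a5 := mj_ultra b ⟨c, xa, -n⟩ p
      rw [mj_comm b ⟨c, xa, -n⟩] at a5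
      unfold gp at a4
      omega
    have hgood : ∀ y, mj (f y) (f p) ≤ U0 → tp - Γ0 ≤ mj ⟨c, xa, -n⟩ y := by
      intro y hy
      have a1 := mj_ultra (f ⟨c, xa, -n⟩) (f y) (f p)
      have a2 : gp (f ⟨c, xa, -n⟩) (f y) (f p) ≤ U0 - (f p).t + 1 := by unfold gp; omega
      have a3 := (hg ⟨c, xa, -n⟩ y p).1
      have a4 := mul_le_mul_of_nonneg_left a2 hB
      have a5 := le_mj_right ⟨c, xa, -n⟩ p
      have a6 := le_mj_right y p
      have a7 : gp ⟨c, xa, -n⟩ y p = mj ⟨c, xa, -n⟩ p + mj y p - mj ⟨c, xa, -n⟩ y - p.t := rfl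
      omega
    have hside : ∀ xb xe : ℝ, |xa - xe| ≤ |xa - xb| → mj (f ⟨c, xe, -n⟩) (f p) ≤ U0 →
        ¬ k < (f ⟨c, xb, -n⟩).t + 3 * B := by
      intro xb xe h1 h2 h3
      have a1 := (hb _ (far1 xb) h3).2
      have a2 := hgood _ h2
      have a3 := JJ_mj ⟨c, xa, -n⟩ ⟨c, xb, -n⟩
      have a4 : mj ⟨c, xa, -n⟩ ⟨c, xe, -n⟩ ≤ mj ⟨c, xa, -n⟩ ⟨c, xb, -n⟩ :=
        mj_le ⟨a3.1, a3.1, Ag.refl _ _, h1.trans a3.2.2.2⟩
      omega
    have hwall : ∀ x j, |x - xp| = 2 ^ n → (f ⟨c, x, j⟩).t + 3 * B ≤ k := by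
      intro x j hx
      by_contra hc
      have a1 := big x j hx
      have a2 := mj_le_DD' ⟨c, x, j⟩ p
      have a3 := (hb ⟨c, x, j⟩ (by omega) (by omega)).1
      omega
    have hv : ∀ x, |x - xp| = 2 ^ n → (P ⟨c, x, -n⟩ ↔ P ⟨c, x, n⟩) := by
      intro x hx
      refine vert_chain (fun j => P ⟨c, x, j⟩) (by omega) (fun j _ _ => step _ _ ?_ (hwall x j hx))
      have := mj_vertical c x (show j ≤ j + 1 by omega)
      show 2 * mj _ _ - j - (j + 1) ≤ 2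
      omega
    have w1 : |xp - 2 ^ n - xp| = (2 : ℝ) ^ n := by
      rw [sub_sub_cancel_left, abs_neg, abs_of_pos hpos]
    have w2 : |xp + 2 ^ n - xp| = (2 : ℝ) ^ n := by
      rw [add_sub_cancel_left, abs_of_pos hpos]
    have c1 : P ⟨c, xp - 2 ^ n, -n⟩ ↔ P ⟨c, lo, -n⟩ := hz _ _ (by linarith) (fun x _ h2 =>
      hside x lo (by rw [abs_of_nonneg (by linarith), abs_of_nonneg (by linarith)]; linarith) glo)
    have c2 : P ⟨c, hi, -n⟩ ↔ P ⟨c, xp + 2 ^ n, -n⟩ := hz _ _ (by linarith) (fun x h1 _ =>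
      hside x hi (by rw [abs_of_nonpos (by linarith), abs_of_nonpos (by linarith)]; linarith) ghi)
    have c3 : P ⟨c, xp - 2 ^ n, n⟩ ↔ P ⟨c, xp + 2 ^ n, n⟩ := step _ _ (DD_horiz c (by
      rw [two_zpow_succ, abs_of_nonpos (by linarith)]; linarith)) (hwall _ n w1)
    exact c1.symm.trans ((hv _ w1).trans (c3.trans ((hv _ w2).symm.trans c2.symm)))
  obtain ⟨x1, b1, b2⟩ := good_ray hB hg c xp hn4
  obtain ⟨x2, b3, b4⟩ := good_ray hB hg c xq hn5
  rw [← hp] at b2 hcon hk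
  rw [← hq] at b4 hcon hk
  have q1 := two_zpow_pos (tp + 1)
  have q2 := two_zpow_pos (tq + 1)
  have q3 := abs_nonneg (xq - xp)
  have b5 : |x1 - xp| ≤ 2 ^ A := by linarith
  have b6 : |x2 - xp| ≤ 2 ^ A := by
    have := abs_sub_le x2 xq xp
    linarith
  have b7 : mj (f ⟨c, x2, -n⟩) (f p) ≤ U0 := by
    have := mj_ultra (f ⟨c, x2, -n⟩) (f q) (f p)
    omega
  have b8 : P ⟨c, x1, -n⟩ := ((Ag_mj (f ⟨c, x1, -n⟩) (f p)).mono (by omega)).symm
  have b9 : ¬ P ⟨c, x2, -n⟩ := fun h =>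
    hcon (Ag.trans h ((Ag_mj (f ⟨c, x2, -n⟩) (f q)).mono (by omega)))
  rcases le_total x1 x2 with h | h
  · exact b9 ((main x1 x2 h b5 b6 (by omega) b7).1 b8)
  · exact b9 ((main x2 x1 h b6 b5 b7 (by omega)).2 b8)

end

/-- `f` sends the leaf `c` close to the leaf `c'` -/
def Leaf (R : ℤ) (f : Pt → Pt) (c c' : Cc) : Prop :=
  ∀ x t, Ag ((f ⟨c, x, t⟩).t + R) c' (f ⟨c, x, t⟩).c

lemma exists_leaf {B G : ℤ} {f : Pt → Pt} (hB : 0 ≤ B) (hf : QI B f)
    (hg : ∀ u v w, gp u v w ≤ B * gp (f u) (f v) (f w) + G ∧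
      gp (f u) (f v) (f w) ≤ B * gp u v w + G) (c : Cc) : ∃ c', Leaf (G + 1) f c c' := by
  obtain ⟨c', hc'⟩ := exists_limit (ι := ℝ × ℤ) (fun p => (f ⟨c, p.1, p.2⟩).t + (G + 1))
    (fun p => (f ⟨c, p.1, p.2⟩).c)
    (fun p q => (leaf_pair hB hf hg c p.1 q.1 p.2 q.2).mono (by omega))
    (fun n => by
      obtain ⟨x, t, h⟩ := exists_low hB hf hg c (n - (G + 1))
      exact ⟨(x, t), by show (f ⟨c, x, t⟩).t + (G + 1) ≤ n; omega⟩)
  exact ⟨c', fun x t => hc' (x, t)⟩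

lemma leaf_unique {f : Pt → Pt} {c c' c'' : Cc} {R R' : ℤ}
    (hlow : ∀ k, ∃ x t, (f ⟨c, x, t⟩).t ≤ k) (h : Leaf R f c c') (h' : Leaf R' f c c'') :
    c' = c'' := by
  apply eq_of_Ag
  intro k
  obtain ⟨x, t, hk⟩ := hlow (k - max R R')
  exact ((h x t).mono (by omega)).trans ((h' x t).mono (by omega)).symm

lemma near_leaf {c : Cc} {u v : Pt} {R ρ : ℤ} (hR : 0 ≤ R) (h : Ag (u.t + R) c u.c)
    (hd : DD u v ≤ ρ) : Ag (v.t + R + ρ) c v.c := by
  have a1 := t_le_DD' u v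
  have a2 := mj_le_DD' u v
  exact (h.mono (by omega)).trans ((Ag_mj u v).mono (by omega))

lemma DD_proj {c : Cc} {u : Pt} {R : ℤ} (hR : 0 ≤ R) (h : Ag (u.t + R) c u.c) :
    DD u ⟨c, u.x, u.t⟩ ≤ 2 * R := by
  have : mj u ⟨c, u.x, u.t⟩ ≤ u.t + R :=
    mj_le ⟨by omega, show u.t ≤ u.t + R by omega, h.symm, by simpa using (two_zpow_pos _).le⟩
  show 2 * mj _ _ - u.t - u.t ≤ _
  omega

end Pool.Agent.MP_8f2dc9_al

end

-- part MP_8f2dc9_al.Count
section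

/-!
Counting classes of partitions, the index of commensurable sets, and the final arithmetic.
-/

namespace Pool.Agent.MP_8f2dc9_al

/-- number of classes meeting `U` -/
noncomputable def cnt {α : Type} (r : Setoid α) (U : Set α) : ℕ := (Quotient.mk r '' U).ncard

lemma cnt_fiber {α : Type} (r r' : Setoid α) (hle : ∀ x y, r x y → r' x y) (U : Set α)
    (hU : ∀ x y, x ∈ U → r' x y → y ∈ U) (hfin : (Quotient.mk r '' U).Finite) (lo hi : ℕ)
    (h : ∀ x ∈ U, lo ≤ cnt r {y | r' x y} ∧ cnt r {y | r' x y} ≤ hi) :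
    lo * cnt r' U ≤ cnt r U ∧ cnt r U ≤ hi * cnt r' U := by
  classical
  let π : Quotient r → Quotient r' := Quotient.map id hle
  have himg : Quotient.mk r' '' U = π '' (Quotient.mk r '' U) := by
    rw [Set.image_image]; rfl
  have hfin' : (Quotient.mk r' '' U).Finite := by rw [himg]; exact hfin.image π
  have hmaps : ∀ q ∈ hfin.toFinset, π q ∈ hfin'.toFinset := by
    intro q hq
    rw [Set.Finite.mem_toFinset] at hq ⊢
    rw [himg]; exact ⟨q, hq, rfl⟩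
  have hsum := Finset.card_eq_sum_card_fiberwise (f := π) (s := hfin.toFinset)
    (t := hfin'.toFinset) hmaps
  have hfib : ∀ q' ∈ hfin'.toFinset,
      lo ≤ (hfin.toFinset.filter (fun q => π q = q')).card ∧
        (hfin.toFinset.filter (fun q => π q = q')).card ≤ hi := by
    intro q' hq'
    rw [Set.Finite.mem_toFinset] at hq'
    obtain ⟨x, hx, rfl⟩ := hq'
    have : ((hfin.toFinset.filter (fun q => π q = Quotient.mk r' x) : Finset _) : Set _) =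
        Quotient.mk r '' {y | r' x y} := by
      ext q
      simp only [Finset.coe_filter, Set.Finite.mem_toFinset, Set.mem_ofPred_eq]
      constructor
      · rintro ⟨⟨y, -, rfl⟩, hy⟩
        exact ⟨y, r'.symm (Quotient.exact hy), rfl⟩
      · rintro ⟨y, hy, rfl⟩
        exact ⟨⟨y, hU x y hx hy, rfl⟩, Quotient.sound (r'.symm hy)⟩
    have h2 : (hfin.toFinset.filter (fun q => π q = Quotient.mk r' x)).card =
        cnt r {y | r' x y} := by
      unfold cnt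
      rw [← this, Set.ncard_coe_finset]
    rw [h2]
    exact h x hx
  have e1 : cnt r U = hfin.toFinset.card := Set.ncard_eq_toFinset_card _ hfin
  have e2 : cnt r' U = hfin'.toFinset.card := Set.ncard_eq_toFinset_card _ hfin'
  rw [e1, e2, hsum]
  constructor
  · have := Finset.card_nsmul_le_sum hfin'.toFinset _ lo (fun q' hq' => (hfib q' hq').1)
    rw [smul_eq_mul, mul_comm] at this
    exact this
  · have := Finset.sum_le_card_nsmul hfin'.toFinset _ hi (fun q' hq' => (hfib q' hq').2)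
    rw [smul_eq_mul, mul_comm] at this
    exact this

lemma cnt_le_of_le {α : Type} (r r' : Setoid α) (hle : ∀ x y, r x y → r' x y) (U : Set α)
    (hfin : (Quotient.mk r '' U).Finite) :
    (Quotient.mk r' '' U).Finite ∧ cnt r' U ≤ cnt r U := by
  let π : Quotient r → Quotient r' := Quotient.map id hle
  have himg : Quotient.mk r' '' U = π '' (Quotient.mk r '' U) := by
    rw [Set.image_image]; rfl
  unfold cnt
  rw [himg]
  exact ⟨hfin.image π, Set.ncard_image_le hfin⟩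

lemma cnt_map {α : Type} (r r' : Setoid α) (h : α → α) (hh : ∀ x y, r x y ↔ r' (h x) (h y))
    (U : Set α) : cnt r' (h '' U) = cnt r U := by
  let π : Quotient r → Quotient r' := Quotient.map h (fun x y hxy => (hh x y).1 hxy)
  have hinj : Function.Injective π := by
    intro a b
    induction a using Quotient.inductionOn
    induction b using Quotient.inductionOn
    intro hab
    exact Quotient.sound ((hh _ _).2 (Quotient.exact hab))
  have himg : Quotient.mk r' '' (h '' U) = π '' (Quotient.mk r '' U) := by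
    rw [Set.image_image, Set.image_image]; rfl
  unfold cnt
  rw [himg, Set.ncard_image_of_injective _ hinj]

lemma cnt_pos {α : Type} (r : Setoid α) (U : Set α) (hfin : (Quotient.mk r '' U).Finite)
    (hU : U.Nonempty) : 1 ≤ cnt r U :=
  (Set.ncard_pos hfin).2 (hU.image _)

lemma cnt_class {α : Type} (r : Setoid α) (x : α) : cnt r {y | r x y} = 1 := by
  have : Quotient.mk r '' {y | r x y} = {Quotient.mk r x} := by
    ext q
    constructor
    · rintro ⟨y, hy, rfl⟩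
      exact Quotient.sound (r.symm hy)
    · rintro rfl
      exact ⟨x, r.refl x, rfl⟩
  unfold cnt
  rw [this, Set.ncard_singleton]

/-- index of two commensurable sets -/
noncomputable def idx {β : Type} (A B : Set β) : ℤ :=
  ((A \ B).ncard : ℤ) - ((B \ A).ncard : ℤ)

lemma idx_core {β : Type} (A B K : Set β) (hKA : K ⊆ A) (hKB : K ⊆ B) (hA : (A \ K).Finite)
    (hB : (B \ K).Finite) : idx A B = ((A \ K).ncard : ℤ) - ((B \ K).ncard : ℤ) := by
  have key : ∀ A B : Set β, K ⊆ A → K ⊆ B → (A \ K).Finite →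
      (A \ K).ncard = (A \ B).ncard + ((A ∩ B) \ K).ncard := by
    intro A B hKA hKB hA
    have e : A \ K = (A \ B) ∪ ((A ∩ B) \ K) := by
      ext x
      constructor
      · rintro ⟨h1, h2⟩
        by_cases hb : x ∈ B
        · exact Or.inr ⟨⟨h1, hb⟩, h2⟩
        · exact Or.inl ⟨h1, hb⟩
      · rintro (⟨h1, h2⟩ | ⟨⟨h1, -⟩, h2⟩)
        · exact ⟨h1, fun hk => h2 (hKB hk)⟩
        · exact ⟨h1, h2⟩
    have f1 : (A \ B).Finite := hA.subset (by rw [e]; exact Set.subset_union_left)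
    have f2 : ((A ∩ B) \ K).Finite := hA.subset (by rw [e]; exact Set.subset_union_right)
    rw [e, Set.ncard_union_eq _ f1 f2]
    rw [Set.disjoint_left]
    rintro x ⟨-, h2⟩ ⟨⟨-, h3⟩, -⟩
    exact h2 h3
  unfold idx
  rw [key A B hKA hKB hA, key B A hKB hKA hB, Set.inter_comm B A]
  push_cast
  ring

lemma idx_add {β : Type} (A B C : Set β) (hAB : (A \ B).Finite) (hBA : (B \ A).Finite)
    (hAC : (A \ C).Finite) (hCA : (C \ A).Finite) (hBC : (B \ C).Finite) (hCB : (C \ B).Finite) :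
    idx A C = idx A B + idx B C := by
  have fA : (A \ (A ∩ B ∩ C)).Finite := (hAB.union hAC).subset (by
    rintro x ⟨h1, h2⟩
    by_cases hb : x ∈ B
    · exact Or.inr ⟨h1, fun hc => h2 ⟨⟨h1, hb⟩, hc⟩⟩
    · exact Or.inl ⟨h1, hb⟩)
  have fB : (B \ (A ∩ B ∩ C)).Finite := (hBA.union hBC).subset (by
    rintro x ⟨h1, h2⟩
    by_cases ha : x ∈ A
    · exact Or.inr ⟨h1, fun hc => h2 ⟨⟨ha, h1⟩, hc⟩⟩
    · exact Or.inl ⟨h1, ha⟩)
  have fC : (C \ (A ∩ B ∩ C)).Finite := (hCA.union hCB).subset (by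
    rintro x ⟨h1, h2⟩
    by_cases ha : x ∈ A
    · exact Or.inr ⟨h1, fun hb => h2 ⟨⟨ha, hb⟩, h1⟩⟩
    · exact Or.inl ⟨h1, ha⟩)
  have sA : A ∩ B ∩ C ⊆ A := fun x hx => hx.1.1
  have sB : A ∩ B ∩ C ⊆ B := fun x hx => hx.1.2
  have sC : A ∩ B ∩ C ⊆ C := fun x hx => hx.2
  rw [idx_core A C _ sA sC fA fC, idx_core A B _ sA sB fA fB, idx_core B C _ sB sC fB fC]
  ring

lemma idx_swap {β : Type} (A B : Set β) : idx B A = - idx A B := by
  unfold idx; ring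

lemma idx_image {β : Type} (f : β → β) (hf : Function.Injective f) (A B : Set β) :
    idx (f '' A) (f '' B) = idx A B := by
  unfold idx
  rw [← Set.image_sdiff hf, ← Set.image_sdiff hf, Set.ncard_image_of_injective _ hf,
    Set.ncard_image_of_injective _ hf]

lemma padic_le (p k : ℕ) [Fact p.Prime] (hk : 1 ≤ k) : padicValNat p k ≤ k := by
  have h1 : p ^ padicValNat p k ≤ k := Nat.le_of_dvd hk pow_padicValNat_dvd
  have h2 : padicValNat p k < p ^ padicValNat p k :=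
    Nat.lt_pow_self (Fact.out : p.Prime).one_lt
  omega

/-- the arithmetic contradiction -/
lemma arith (ν : ℤ → Cc → ℕ) (m K : ℕ) (t0 : ℤ) (hm : 1 ≤ m)
    (h1 : ∀ t, t0 ≤ t → ∃ j : ℕ, ∀ c, ∃ k, 1 ≤ k ∧ k ≤ K ∧ ν t c = m ^ j * k)
    (h2 : ∀ t t', t0 ≤ t → t ≤ t' → ∀ lo hi : ℕ, (∀ c, lo ≤ ν t c ∧ ν t c ≤ hi) →
      ∀ c, lo * nb t t' ≤ ν t' c ∧ ν t' c ≤ hi * nb t t') : False := by
  have h3 : ∀ t, t0 ≤ t → ∃ j kM km : ℕ, 1 ≤ kM ∧ kM ≤ K ∧ 1 ≤ km ∧ km ≤ K ∧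
      (∃ c, ν t c = m ^ j * kM) ∧ (∃ c, ν t c = m ^ j * km) ∧
      ∀ c, m ^ j * km ≤ ν t c ∧ ν t c ≤ m ^ j * kM := by
    intro t ht
    obtain ⟨j, hj⟩ := h1 t ht
    choose k hk using hj
    have hfin : (Set.range k).Finite := (Set.finite_Icc 1 K).subset (by
      rintro _ ⟨c, rfl⟩
      exact ⟨(hk c).1, (hk c).2.1⟩)
    obtain ⟨_, ⟨cM, rfl⟩, hM⟩ := Set.exists_max_image (Set.range k) id hfin ⟨_, 0, rfl⟩
    obtain ⟨_, ⟨cm, rfl⟩, hmin⟩ := Set.exists_min_image (Set.range k) id hfin ⟨_, 0, rfl⟩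
    refine ⟨j, k cM, k cm, (hk cM).1, (hk cM).2.1, (hk cm).1, (hk cm).2.1, ⟨cM, (hk cM).2.2⟩,
      ⟨cm, (hk cm).2.2⟩, fun c => ?_⟩
    rw [(hk c).2.2]
    exact ⟨Nat.mul_le_mul_left _ (hmin _ ⟨c, rfl⟩), Nat.mul_le_mul_left _ (hM _ ⟨c, rfl⟩)⟩
  choose! J kM km hkM1 hkM2 hkm1 hkm2 hM hmin hall using h3
  let S : Set (ℕ × ℕ) := (fun t => (kM t, km t)) '' {t | t0 ≤ t}
  have hS : S.Finite := ((Set.finite_Icc 1 K).prod (Set.finite_Icc 1 K)).subset (by
    rintro _ ⟨t, ht, rfl⟩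
    exact ⟨⟨hkM1 t ht, hkM2 t ht⟩, ⟨hkm1 t ht, hkm2 t ht⟩⟩)
  obtain ⟨_, ⟨t1, ht1, rfl⟩, hq⟩ := Set.exists_min_image S (fun p => (p.1 : ℚ) / p.2) hS
    ⟨_, t0, (le_refl t0 : t0 ≤ t0), rfl⟩
  have ht1' : t0 ≤ t1 := ht1
  have key : ∀ t, t1 ≤ t → m ^ J t * kM t = m ^ J t1 * kM t1 * nb t1 t := by
    intro t ht
    have ht0 : t0 ≤ t := le_trans ht1' ht
    have hb := h2 t1 t ht1' ht _ _ (hall t1 ht1')
    obtain ⟨cM, hcM⟩ := hM t ht0
    obtain ⟨cm, hcm⟩ := hmin t ht0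
    have u1 := (hb cM).2
    have u2 := (hb cm).1
    rw [hcM] at u1
    rw [hcm] at u2
    have u3 : (kM t1 : ℚ) / km t1 ≤ (kM t : ℚ) / km t := hq _ ⟨t, ht0, rfl⟩
    have p1 : (0 : ℚ) < km t1 := by exact_mod_cast hkm1 t1 ht1'
    have p2 : (0 : ℚ) < km t := by exact_mod_cast hkm1 t ht0
    rw [div_le_div_iff₀ p1 p2] at u3
    have u4 : kM t1 * km t ≤ kM t * km t1 := by exact_mod_cast u3
    apply le_antisymm u1
    have p3 : 0 < km t1 := hkm1 t1 ht1'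
    apply Nat.le_of_mul_le_mul_right _ p3
    calc m ^ J t1 * kM t1 * nb t1 t * km t1 = kM t1 * (m ^ J t1 * km t1 * nb t1 t) := by ring
      _ ≤ kM t1 * (m ^ J t * km t) := Nat.mul_le_mul_left _ u2
      _ = m ^ J t * (kM t1 * km t) := by ring
      _ ≤ m ^ J t * (kM t * km t1) := Nat.mul_le_mul_left _ u4
      _ = m ^ J t * kM t * km t1 := by ring
  have hm0 : m ≠ 0 := by omega
  have hM10 : m ^ J t1 * kM t1 ≠ 0 :=
    mul_ne_zero (pow_ne_zero _ hm0) (by have := hkM1 t1 ht1'; omega)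
  generalize m ^ J t1 * kM t1 = M1 at key hM10
  have v23 : padicValNat 2 3 = 0 := padicValNat.eq_zero_of_not_dvd (by norm_num)
  have v32 : padicValNat 3 2 = 0 := padicValNat.eq_zero_of_not_dvd (by norm_num)
  have val : ∀ t, t1 ≤ t →
      J t * padicValNat 2 m + padicValNat 2 (kM t) =
        padicValNat 2 M1 + (pos2 t - pos2 t1).toNat ∧
      J t * padicValNat 3 m + padicValNat 3 (kM t) =
        padicValNat 3 M1 + (t - t1).toNat := by
    intro t ht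
    have hk0 : kM t ≠ 0 := by have := hkM1 t (le_trans ht1' ht); omega
    have e := key t ht
    unfold nb at e
    generalize (pos2 t - pos2 t1).toNat = a at e ⊢
    generalize (t - t1).toNat = b at e ⊢
    have n2 : (2 : ℕ) ^ a ≠ 0 := by positivity
    have n3 : (3 : ℕ) ^ b ≠ 0 := by positivity
    constructor
    · have := congrArg (padicValNat 2) e
      rw [padicValNat.mul (pow_ne_zero _ hm0) hk0, padicValNat.mul hM10 (mul_ne_zero n2 n3),
        padicValNat.mul n2 n3, padicValNat.prime_pow, padicValNat.pow, padicValNat.pow,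
        v23] at this
      omega
    · have := congrArg (padicValNat 3) e
      rw [padicValNat.mul (pow_ne_zero _ hm0) hk0, padicValNat.mul hM10 (mul_ne_zero n2 n3),
        padicValNat.mul n2 n3, padicValNat.prime_pow, padicValNat.pow, padicValNat.pow,
        v32] at this
      omega
  set p := padicValNat 2 m
  set q := padicValNat 3 m
  set A := padicValNat 2 M1
  set B := padicValNat 3 M1
  have bound : ∀ n : ℕ, |(q * Real.sqrt 2 - p) * n| ≤ q * (K + A + 1) + p * (K + B) ∧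
      (q = 0 → n ≤ K) := by
    intro n
    obtain ⟨e1, e2⟩ := val (t1 + n) (by omega)
    have k1 := hkM1 (t1 + n) (by omega)
    have k2 := hkM2 (t1 + n) (by omega)
    have w2 := padic_le 2 _ k1
    have w3 := padic_le 3 _ k1
    have hmono := pos2_mono (show t1 ≤ t1 + n by omega)
    set x := padicValNat 2 (kM (t1 + n))
    set y := padicValNat 3 (kM (t1 + n))
    set j := J (t1 + n)
    have e2' : j * q + y = B + n := by
      have : (t1 + n - t1).toNat = n := by omega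
      rw [this] at e2; exact e2
    refine ⟨?_, fun hq0 => by rw [hq0] at e2'; omega⟩
    have e1' : ((j * p + x : ℕ) : ℤ) = A + (pos2 (t1 + n) - pos2 t1) := by
      rw [e1]; push_cast; omega
    have r1 : (j : ℝ) * p + x = A + ((pos2 (t1 + n) : ℝ) - pos2 t1) := by exact_mod_cast e1'
    have r2 : (j : ℝ) * q + y = B + n := by exact_mod_cast e2'
    have f1 : (pos2 (t1 + n) : ℝ) ≤ Real.sqrt 2 * (t1 + n) := by
      have := Int.floor_le (Real.sqrt 2 * ((t1 + n : ℤ) : ℝ))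
      unfold pos2; push_cast at this ⊢; exact this
    have f2 : Real.sqrt 2 * (t1 + n) < (pos2 (t1 + n) : ℝ) + 1 := by
      have := Int.lt_floor_add_one (Real.sqrt 2 * ((t1 + n : ℤ) : ℝ))
      unfold pos2; push_cast at this ⊢; exact this
    have f3 : (pos2 t1 : ℝ) ≤ Real.sqrt 2 * t1 := Int.floor_le _
    have f4 : Real.sqrt 2 * t1 < (pos2 t1 : ℝ) + 1 := Int.lt_floor_add_one _
    have x1 : (x : ℝ) ≤ K := by exact_mod_cast le_trans w2 k2
    have y1 : (y : ℝ) ≤ K := by exact_mod_cast le_trans w3 k2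
    have x0 : (0 : ℝ) ≤ x := Nat.cast_nonneg _
    have y0 : (0 : ℝ) ≤ y := Nat.cast_nonneg _
    have A0 : (0 : ℝ) ≤ A := Nat.cast_nonneg _
    have B0 : (0 : ℝ) ≤ B := Nat.cast_nonneg _
    have p0 : (0 : ℝ) ≤ p := Nat.cast_nonneg _
    have q0 : (0 : ℝ) ≤ q := Nat.cast_nonneg _
    have K0 : (0 : ℝ) ≤ K := Nat.cast_nonneg _
    obtain ⟨ε, hε⟩ : ∃ ε : ℝ, ε = Real.sqrt 2 * n - (j * p + x - A) := ⟨_, rfl⟩
    have ε1 : ε ≤ 1 := by rw [hε]; linarith
    have ε2 : -1 ≤ ε := by rw [hε]; linarith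
    have eq : (q * Real.sqrt 2 - p) * n = q * (ε + x - A) - p * (y - B) := by
      have : (n : ℝ) = j * q + y - B := by linarith
      have h5 : Real.sqrt 2 * n = ε + (j * p + x - A) := by rw [hε]; ring
      calc (q * Real.sqrt 2 - p) * n = q * (Real.sqrt 2 * n) - p * n := by ring
        _ = q * (ε + (j * p + x - A)) - p * (j * q + y - B) := by rw [h5, ← this]
        _ = _ := by ring
    rw [eq, abs_le]
    constructor <;> nlinarith [mul_nonneg q0 x0, mul_nonneg q0 A0, mul_nonneg p0 y0,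
      mul_nonneg p0 B0, mul_nonneg q0 K0, mul_nonneg p0 K0]
  have hq0 : q ≠ 0 := fun h0 => by
    have := (bound (K + 1)).2 h0
    omega
  have hne : (q : ℝ) * Real.sqrt 2 - p ≠ 0 := by
    intro h0
    have hq' : (q : ℝ) ≠ 0 := by exact_mod_cast hq0
    have : Real.sqrt 2 = ((p / q : ℚ) : ℝ) := by
      push_cast
      field_simp
      linarith
    exact irrational_sqrt_two ⟨_, this.symm⟩
  have hpos : 0 < |(q : ℝ) * Real.sqrt 2 - p| := abs_pos.2 hne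
  obtain ⟨n, hn⟩ := exists_nat_gt ((q * (K + A + 1) + p * (K + B) : ℝ) / |(q : ℝ) * Real.sqrt 2 - p|)
  have := (bound n).1
  rw [abs_mul, Nat.abs_cast] at this
  rw [div_lt_iff₀ hpos] at hn
  linarith

end Pool.Agent.MP_8f2dc9_al

end

-- part MP_8f2dc9_al.NoAction
section

/-!
No group acts on the space of leaves coboundedly by maps that shift all levels by a constant up
to a uniformly bounded error.
-/

namespace Pool.Agent.MP_8f2dc9_al

universe u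

/-- a cobounded action on the leaves by uniform coarse similarities -/
structure Act {G : Type u} [Group G] (F : G → Cc → Cc) (s : G → ℤ) (E : ℤ) : Prop where
  nonneg : 0 ≤ E
  one : ∀ c, F 1 c = c
  mul : ∀ g h c, F (g * h) c = F g (F h c)
  up : ∀ g t c c', Ag t c c' → Ag (t + s g + E) (F g c) (F g c')
  q : ∀ g h, s g + s h - E ≤ s (g * h) ∧ s (g * h) ≤ s g + s h + E
  cob : ∀ c t, ∃ g, t - E ≤ s g ∧ s g ≤ t + E ∧ Ag (t + E) (F g 0) c

/-- the level `t` block of `c` -/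
def blk (t : ℤ) (c : Cc) : Set Cc := {c' | Ag t c c'}

/-- contains a block and is contained in a block -/
def Good (U : Set Cc) : Prop := (∃ c t, blk t c ⊆ U) ∧ (∃ c t, U ⊆ blk t c)

lemma good_blk (t : ℤ) (c : Cc) : Good (blk t c) := ⟨⟨c, t, subset_rfl⟩, ⟨c, t, subset_rfl⟩⟩

lemma fin_lev_blk (l t : ℤ) (c : Cc) : (Quotient.mk (lev l) '' blk t c).Finite :=
  (card_blocks (le_max_left l t) c).1.subset
    (Set.image_mono (fun _ h => Ag.mono h (le_max_right l t)))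

lemma fin_saturated (l t : ℤ) (c : Cc) :
    {A : Set Cc | A ⊆ blk t c ∧ ∀ x y, x ∈ A → Ag l x y → y ∈ A}.Finite := by
  apply Set.Finite.of_finite_image (f := fun A => Quotient.mk (lev l) '' A)
  · refine (fin_lev_blk l t c).finite_subsets.subset ?_
    rintro _ ⟨A, hA, rfl⟩
    exact Set.image_mono hA.1
  · have key : ∀ A B : Set Cc, (∀ x y, x ∈ B → Ag l x y → y ∈ B) →
        Quotient.mk (lev l) '' A = Quotient.mk (lev l) '' B → A ⊆ B := by
      intro A B hB h x hx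
      have : Quotient.mk (lev l) x ∈ Quotient.mk (lev l) '' B := by
        rw [← h]; exact ⟨x, hx, rfl⟩
      obtain ⟨y, hy, hxy⟩ := this
      exact hB y x hy (Quotient.exact hxy)
    intro A hA B hB h
    exact Set.Subset.antisymm (key A B hB.2 h) (key B A hA.2 h.symm)

section
variable {G : Type u} [Group G] (F : G → Cc → Cc) (E : ℤ)

/-- translates of the base block -/
def EE (g : G) : Set Cc := F g '' blk (5 * E) 0

/-- translates of the base block containing `U` -/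
def RR (U : Set Cc) : Set (Set Cc) := {A | (∃ g, A = EE F E g) ∧ U ⊆ A}

/-- the transfer character -/
noncomputable def tau (g : G) : ℤ := idx (RR F E (blk (5 * E) 0)) (RR F E (EE F E g))

/-- the invariant partitions -/
def eqv (j : ℤ) : Setoid Cc :=
  Relation.EqvGen.setoid (fun c c' => ∃ g, tau F E g ≤ j ∧ c ∈ EE F E g ∧ c' ∈ EE F E g)

end

namespace Act

variable {G : Type u} [Group G] {F : G → Cc → Cc} {s : G → ℤ} {E : ℤ} (H : Act F s E)
include H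

lemma inv_cancel (g : G) (c : Cc) : F g⁻¹ (F g c) = c := by
  rw [← H.mul, inv_mul_cancel, H.one]

lemma cancel_inv (g : G) (c : Cc) : F g (F g⁻¹ c) = c := by
  rw [← H.mul, mul_inv_cancel, H.one]

lemma inj (g : G) : Function.Injective (F g) := fun a b h => by
  rw [← H.inv_cancel g a, h, H.inv_cancel]

lemma s_inv (g : G) : -2 * E ≤ s g + s g⁻¹ ∧ s g + s g⁻¹ ≤ 2 * E := by
  have h1 := H.q 1 1
  have h2 := H.q g g⁻¹
  rw [mul_one] at h1
  rw [mul_inv_cancel] at h2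
  omega

lemma down {g : G} {t : ℤ} {c c' : Cc} (h : Ag t (F g c) (F g c')) :
    Ag (t - s g + 3 * E) c c' := by
  have h1 := H.up g⁻¹ _ _ _ h
  rw [H.inv_cancel, H.inv_cancel] at h1
  have := H.s_inv g
  exact h1.mono (by omega)

lemma EE_sub {g : G} {c c' : Cc} (h : c ∈ EE F E g) (h' : c' ∈ EE F E g) :
    Ag (6 * E + s g) c c' := by
  obtain ⟨b, hb, rfl⟩ := h
  obtain ⟨b', hb', rfl⟩ := h'
  have h1 : Ag (5 * E) b b' := (Ag.symm hb).trans hb'
  exact (H.up g _ _ _ h1).mono (by omega)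

lemma img_sat {g : G} {t : ℤ} {b c' : Cc} (h : Ag (t + s g - 3 * E) (F g b) c') :
    c' ∈ F g '' blk t b := by
  refine ⟨F g⁻¹ c', ?_, H.cancel_inv g c'⟩
  rw [← H.cancel_inv g c'] at h
  exact (H.down h).mono (by omega)

lemma EE_sat {g : G} {c c' : Cc} (h : c ∈ EE F E g) (h' : Ag (2 * E + s g) c c') :
    c' ∈ EE F E g := by
  obtain ⟨b, hb, rfl⟩ := h
  obtain ⟨b', hb', rfl⟩ := H.img_sat (g := g) (t := 5 * E) (b := b) (c' := c') (h'.mono (by omega))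
  exact ⟨b', Ag.trans hb hb', rfl⟩

lemma cover (c : Cc) (t : ℤ) : ∃ g, t - E ≤ s g ∧ s g ≤ t + E ∧ c ∈ EE F E g := by
  obtain ⟨g, h1, h2, h3⟩ := H.cob c t
  exact ⟨g, h1, h2, H.EE_sat ⟨0, Ag.refl _ _, rfl⟩ (h3.mono (by omega))⟩

lemma good_img (g : G) {U : Set Cc} (hU : Good U) : Good (F g '' U) := by
  obtain ⟨⟨c, t, h1⟩, ⟨c', t', h2⟩⟩ := hU
  refine ⟨⟨F g c, t + s g - 3 * E, fun x hx => Set.image_mono h1 (H.img_sat hx)⟩,
    ⟨F g c', t' + s g + E, ?_⟩⟩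
  rintro _ ⟨x, hx, rfl⟩
  exact H.up g _ _ _ (h2 hx)

lemma img_EE (g h : G) : F g '' EE F E h = EE F E (g * h) := by
  unfold EE
  rw [Set.image_image]
  congr 1
  funext c
  rw [H.mul]

lemma RR_img (g : G) (U : Set Cc) : RR F E (F g '' U) = Set.image (F g) '' RR F E U := by
  ext A
  constructor
  · rintro ⟨⟨h, rfl⟩, hA⟩
    refine ⟨EE F E (g⁻¹ * h), ⟨⟨_, rfl⟩, fun x hx => ?_⟩, ?_⟩
    · rw [← H.img_EE]
      exact ⟨F g x, hA ⟨x, hx, rfl⟩, H.inv_cancel g x⟩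
    · show F g '' _ = _
      rw [H.img_EE, mul_inv_cancel_left]
  · rintro ⟨_, ⟨⟨h, rfl⟩, hA⟩, rfl⟩
    exact ⟨⟨g * h, H.img_EE g h⟩, Set.image_mono hA⟩

lemma RR_fin {U U' : Set Cc} (hU : Good U) (hU' : Good U') : (RR F E U \ RR F E U').Finite := by
  obtain ⟨⟨c1, t1, h1⟩, -⟩ := hU
  obtain ⟨-, ⟨c2, t2, h2⟩⟩ := hU'
  obtain ⟨T0, hT0⟩ := exists_Ag c1 c2
  refine (fin_saturated (t1 - 4 * E) (max T0 t2 + 4 * E) c1).subset ?_
  rintro _ ⟨⟨⟨g, rfl⟩, hA⟩, hA'⟩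
  have hc1 : c1 ∈ EE F E g := hA (h1 (Ag.refl _ _))
  have lo : t1 ≤ 6 * E + s g :=
    le_of_block_subset (c := c1) (fun c' hc' => H.EE_sub hc1 (hA (h1 hc')))
  have hi : 2 * E + s g < max T0 t2 := by
    by_contra hcon
    apply hA'
    refine ⟨⟨g, rfl⟩, fun x hx => H.EE_sat hc1 ?_⟩
    exact (hT0.mono (by omega)).trans (Ag.mono (h2 hx) (by omega))
  exact ⟨fun x hx => (H.EE_sub hc1 hx).mono (by omega),
    fun x y hx hxy => H.EE_sat hx (hxy.mono (by omega))⟩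

lemma idx_RR_add {U V W : Set Cc} (hU : Good U) (hV : Good V) (hW : Good W) :
    idx (RR F E U) (RR F E W) = idx (RR F E U) (RR F E V) + idx (RR F E V) (RR F E W) :=
  idx_add _ _ _ (H.RR_fin hU hV) (H.RR_fin hV hU) (H.RR_fin hU hW) (H.RR_fin hW hU)
    (H.RR_fin hV hW) (H.RR_fin hW hV)

lemma idx_RR_img (g : G) (U V : Set Cc) :
    idx (RR F E (F g '' U)) (RR F E (F g '' V)) = idx (RR F E U) (RR F E V) := by
  rw [H.RR_img, H.RR_img, idx_image _ (Set.image_injective.2 (H.inj g))]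

lemma tau_eq (g : G) {U : Set Cc} (hU : Good U) :
    idx (RR F E U) (RR F E (F g '' U)) = tau F E g := by
  have hB := good_blk (5 * E) 0
  rw [H.idx_RR_add hU hB (H.good_img g hU), H.idx_RR_add hB (H.good_img g hB) (H.good_img g hU),
    H.idx_RR_img, idx_swap (RR F E U)]
  unfold tau EE
  ring

lemma tau_mul (g h : G) : tau F E (g * h) = tau F E g + tau F E h := by
  have hB := good_blk (5 * E) 0
  have e : tau F E (g * h) =
      idx (RR F E (blk (5 * E) 0)) (RR F E (F g '' (F h '' blk (5 * E) 0))) := by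
    unfold tau
    rw [← H.img_EE]; rfl
  rw [e, H.idx_RR_add hB (H.good_img g hB) (H.good_img g (H.good_img h hB)), H.idx_RR_img]
  rfl

lemma tau_one : tau F E (1 : G) = 0 := by
  have := H.tau_mul 1 1
  rw [mul_one] at this
  omega

lemma tau_inv (g : G) : tau F E g⁻¹ = - tau F E g := by
  have := H.tau_mul g g⁻¹
  rw [mul_inv_cancel, H.tau_one] at this
  omega

lemma tau_pow (g : G) (n : ℕ) : tau F E (g ^ n) = n * tau F E g := by
  induction n with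
  | zero => simp [H.tau_one]
  | succ n ih => rw [pow_succ, H.tau_mul, ih]; push_cast; ring

lemma tau_pos {g : G} (hg : 9 * E + 1 ≤ s g) : 0 < tau F E g := by
  have hE := H.nonneg
  obtain ⟨T, hT⟩ := exists_Ag (F g 0) 0
  have hU := good_blk T 0
  have hsub : blk (T + s g - 3 * E) 0 ⊆ F g '' blk T 0 := fun x hx =>
    H.img_sat ((hT.mono (by omega)).trans hx)
  have hsub' : blk T 0 ⊆ F g '' blk T 0 := fun x hx => hsub (Ag.mono hx (by omega))
  rw [← H.tau_eq g hU]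
  unfold idx
  have e0 : RR F E (F g '' blk T 0) \ RR F E (blk T 0) = ∅ := by
    rw [Set.sdiff_eq_empty]
    rintro A ⟨hA1, hA2⟩
    exact ⟨hA1, hsub'.trans hA2⟩
  obtain ⟨h, h1, h2, h3⟩ := H.cover 0 (T - E)
  have hne : (RR F E (blk T 0) \ RR F E (F g '' blk T 0)).Nonempty := by
    refine ⟨EE F E h, ⟨⟨h, rfl⟩, fun x hx => H.EE_sat h3 (Ag.mono hx (by omega))⟩, fun hc => ?_⟩
    have : T + s g - 3 * E ≤ 6 * E + s h :=
      le_of_block_subset (c := 0) (fun c' hc' => H.EE_sub h3 (hc.2 (hsub hc')))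
    omega
  have := (Set.ncard_pos (H.RR_fin hU (H.good_img g hU))).2 hne
  rw [e0, Set.ncard_empty]
  omega

lemma eqv_map (h : G) {j : ℤ} {c c' : Cc} (hc : eqv F E j c c') :
    eqv F E (j + tau F E h) (F h c) (F h c') := by
  change Relation.EqvGen _ _ _ at hc
  change Relation.EqvGen _ _ _
  induction hc with
  | rel x y hxy =>
    obtain ⟨g, h1, h2, h3⟩ := hxy
    refine Relation.EqvGen.rel _ _ ⟨h * g, by rw [H.tau_mul]; omega, ?_, ?_⟩
    · rw [← H.img_EE]; exact ⟨x, h2, rfl⟩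
    · rw [← H.img_EE]; exact ⟨y, h3, rfl⟩
  | refl x => exact Relation.EqvGen.refl _
  | symm x y _ ih => exact Relation.EqvGen.symm _ _ ih
  | trans x y z _ _ ih1 ih2 => exact Relation.EqvGen.trans _ _ _ ih1 ih2

lemma eqv_iff (h : G) (j : ℤ) (c c' : Cc) :
    eqv F E j c c' ↔ eqv F E (j + tau F E h) (F h c) (F h c') := by
  refine ⟨H.eqv_map h, fun hc => ?_⟩
  have := H.eqv_map h⁻¹ hc
  rw [H.inv_cancel, H.inv_cancel, H.tau_inv, add_neg_cancel_right] at this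
  exact this

omit H [Group G] in
lemma eqv_mono {j j' : ℤ} (hj : j ≤ j') {c c' : Cc} (hc : eqv F E j c c') : eqv F E j' c c' := by
  change Relation.EqvGen _ _ _ at hc
  change Relation.EqvGen _ _ _
  induction hc with
  | rel x y hxy =>
    obtain ⟨g, h1, h2⟩ := hxy
    exact Relation.EqvGen.rel _ _ ⟨g, le_trans h1 hj, h2⟩
  | refl x => exact Relation.EqvGen.refl _
  | symm x y _ ih => exact Relation.EqvGen.symm _ _ ih
  | trans x y z _ _ ih1 ih2 => exact Relation.EqvGen.trans _ _ _ ih1 ih2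

lemma eqv_zero_sub {c c' : Cc} (hc : eqv F E 0 c c') : Ag (15 * E) c c' := by
  change Relation.EqvGen _ _ _ at hc
  induction hc with
  | rel x y hxy =>
    obtain ⟨g, h1, h2, h3⟩ := hxy
    have : s g ≤ 9 * E := by
      by_contra hcon
      have := H.tau_pos (g := g) (by omega)
      omega
    exact (H.EE_sub h2 h3).mono (by omega)
  | refl x => exact Ag.refl _ _
  | symm x y _ ih => exact ih.symm
  | trans x y z _ _ ih1 ih2 => exact ih1.trans ih2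

lemma sub_eqv_zero {c c' : Cc} (hc : Ag (-11 * E - 1) c c') : eqv F E 0 c c' := by
  obtain ⟨g, h1, h2, h3⟩ := H.cover c (-12 * E - 1)
  have h4 := H.s_inv g
  have h5 := H.tau_pos (g := g⁻¹) (by omega)
  rw [H.tau_inv] at h5
  exact Relation.EqvGen.rel _ _ ⟨g, by omega, h3, H.EE_sat h3 (hc.mono (by omega))⟩

lemma eqv_sub (h : G) {c c' : Cc} (hc : eqv F E (tau F E h) c c') : Ag (s h + 16 * E) c c' := by
  have h1 := H.eqv_map h⁻¹ hc
  rw [H.tau_inv, add_neg_cancel] at h1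
  have h2 := H.up h _ _ _ (H.eqv_zero_sub h1)
  rw [H.cancel_inv, H.cancel_inv] at h2
  exact h2.mono (by omega)

lemma sub_eqv (h : G) {c c' : Cc} (hc : Ag (s h - 14 * E - 1) c c') :
    eqv F E (tau F E h) c c' := by
  rw [← H.cancel_inv h c, ← H.cancel_inv h c'] at hc
  have h1 := H.eqv_map h (H.sub_eqv_zero ((H.down hc).mono (by omega)))
  rw [H.cancel_inv, H.cancel_inv, zero_add] at h1
  exact h1

lemma trans_zero : ∃ T, ∀ c, ∃ g, tau F E g = 0 ∧ Ag T (F g 0) c := by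
  classical
  have hE := H.nonneg
  obtain ⟨γ, hγ, -, -⟩ := H.cover 0 (14 * E + 1)
  have hrep : ∀ i : ℤ, ∃ (r : G) (T : ℤ), ((∃ g, tau F E g = i) → tau F E r = i) ∧
      Ag T (F r⁻¹ 0) 0 := by
    intro i
    by_cases hi : ∃ g, tau F E g = i
    · obtain ⟨g, hg⟩ := hi
      obtain ⟨T, hT⟩ := exists_Ag (F g⁻¹ 0) 0
      exact ⟨g, T, fun _ => hg, hT⟩
    · obtain ⟨T, hT⟩ := exists_Ag (F (1 : G)⁻¹ 0) 0
      exact ⟨1, T, fun h => absurd h hi, hT⟩
  choose rep T hrep hT using hrep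
  obtain ⟨T0, hT0⟩ := ((Set.finite_Icc (- tau F E γ) (tau F E γ)).image T).bddAbove
  refine ⟨max T0 0 + 2 * E, fun c => ?_⟩
  obtain ⟨g, h1, h2, h3⟩ := H.cob c 0
  have h4 := H.s_inv g
  have h5 := H.tau_pos (g := γ * g) (by have := H.q γ g; omega)
  have h6 := H.tau_pos (g := γ * g⁻¹) (by have := H.q γ g⁻¹; omega)
  rw [H.tau_mul] at h5 h6
  rw [H.tau_inv] at h6
  have h7 : T (tau F E g) ≤ T0 := hT0 ⟨tau F E g, ⟨by omega, by omega⟩, rfl⟩
  refine ⟨g * (rep (tau F E g))⁻¹, ?_, ?_⟩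
  · rw [H.tau_mul, H.tau_inv, hrep _ ⟨g, rfl⟩]; ring
  · rw [H.mul]
    exact ((H.up g _ _ _ (hT (tau F E g))).mono (by omega)).trans (h3.mono (by omega))

theorem false : False := by
  classical
  have hE := H.nonneg
  obtain ⟨γ, hγ1, hγ2, -⟩ := H.cover 0 (10 * E + 1)
  have hd := H.tau_pos (g := γ) (by omega)
  obtain ⟨σ, hσ⟩ : ∃ σ : ℕ → ℤ, σ = fun n => s (γ ^ n) := ⟨_, rfl⟩
  have hσs : ∀ n, σ n + 1 ≤ σ (n + 1) ∧ σ (n + 1) ≤ σ n + 12 * E + 1 := by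
    intro n
    have := H.q (γ ^ n) γ
    rw [← pow_succ] at this
    rw [hσ]
    constructor <;> simp only <;> omega
  have hσg : ∀ n k : ℕ, σ n + k ≤ σ (n + k) := by
    intro n k
    induction k with
    | zero => simp
    | succ k ih =>
      have := (hσs (n + k)).1
      rw [← add_assoc]; push_cast; omega
  let r : ℕ → Setoid Cc := fun n => eqv F E (n * tau F E γ)
  have r_sub : ∀ n c c', r n c c' → Ag (σ n + 16 * E) c c' := by
    intro n c c' h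
    rw [hσ]
    apply H.eqv_sub
    rw [H.tau_pow]; exact h
  have sub_r : ∀ n c c', Ag (σ n - 14 * E - 1) c c' → r n c c' := by
    intro n c c' h
    rw [hσ] at h
    have := H.sub_eqv _ h
    rw [H.tau_pow] at this; exact this
  have r_mono : ∀ n n', n ≤ n' → ∀ c c', r n c c' → r n' c c' := by
    intro n n' h c c' hc
    refine eqv_mono ?_ hc
    have : (n : ℤ) ≤ n' := by exact_mod_cast h
    nlinarith
  have fin_r : ∀ n t c, (Quotient.mk (r n) '' blk t c).Finite := fun n t c =>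
    (cnt_le_of_le (lev (σ n - 14 * E - 1)) (r n) (sub_r n) _ (fin_lev_blk _ t c)).1
  have fin_cls : ∀ n n' c, (Quotient.mk (r n) '' {y | r n' c y}).Finite := fun n n' c =>
    (fin_r n (σ n' + 16 * E) c).subset (Set.image_mono (fun y hy => r_sub n' c y hy))
  obtain ⟨T, hT⟩ := H.trans_zero
  obtain ⟨n0, hn0⟩ : ∃ n0 : ℕ, T ≤ σ n0 - 14 * E - 1 := by
    refine ⟨(T + 14 * E + 1 - σ 0).toNat, ?_⟩
    have := hσg 0 (T + 14 * E + 1 - σ 0).toNat
    rw [zero_add] at this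
    omega
  have tr : ∀ n, n0 ≤ n → ∀ c, ∃ g, tau F E g = 0 ∧ r n (F g 0) c := by
    intro n hn c
    obtain ⟨g, h1, h2⟩ := hT c
    exact ⟨g, h1, r_mono n0 n hn _ _ (sub_r n0 _ _ (h2.mono hn0))⟩
  obtain ⟨m, hm⟩ : ∃ m, m = cnt (r n0) {y | r (n0 + 1) 0 y} := ⟨_, rfl⟩
  have hm1 : 1 ≤ m := by
    rw [hm]
    exact cnt_pos _ _ (fin_cls _ _ _) ⟨0, (r (n0 + 1)).refl 0⟩
  have hreg : ∀ j c, cnt (r (n0 + j)) {y | r (n0 + j + 1) c y} = m := by
    intro j c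
    obtain ⟨g1, a1, b1⟩ := tr (n0 + j + 1) (by omega) (F (γ ^ j) 0)
    obtain ⟨g2, a2, b2⟩ := tr (n0 + j + 1) (by omega) c
    have hz : ∀ (g : G), tau F E g = 0 → ∀ n x y, r n x y → r n (F g x) (F g y) := by
      intro g hg n x y hxy
      have := H.eqv_map g hxy
      rw [hg, add_zero] at this
      exact this
    let h := g2 * g1⁻¹ * γ ^ j
    have th : tau F E h = j * tau F E γ := by
      simp only [h]
      rw [H.tau_mul, H.tau_mul, H.tau_inv, H.tau_pow, a1, a2]; ring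
    have hh : ∀ n x y, r n x y ↔ r (n + j) (F h x) (F h y) := by
      intro n x y
      have := H.eqv_iff h (n * tau F E γ) x y
      rw [th] at this
      have e : (n : ℤ) * tau F E γ + j * tau F E γ = ((n + j : ℕ) : ℤ) * tau F E γ := by
        push_cast; ring
      rw [e] at this
      exact this
    have h0 : r (n0 + j + 1) (F h 0) c := by
      simp only [h]
      rw [H.mul, H.mul]
      have c1 := hz g1⁻¹ (by rw [H.tau_inv, a1]; ring) _ _ _ b1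
      rw [H.inv_cancel] at c1
      exact (r _).trans (hz g2 a2 _ _ _ ((r _).symm c1)) b2
    have himg : F h '' {y | r (n0 + 1) 0 y} = {y | r (n0 + j + 1) c y} := by
      have e : n0 + 1 + j = n0 + j + 1 := by ring
      ext y
      constructor
      · rintro ⟨x, hx, rfl⟩
        have := (hh _ _ _).1 hx
        rw [e] at this
        exact (r _).trans ((r _).symm h0) this
      · intro hy
        refine ⟨F h⁻¹ y, (hh _ _ _).2 ?_, H.cancel_inv h y⟩
        rw [e, H.cancel_inv]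
        exact (r _).trans h0 hy
    rw [← himg, cnt_map (r n0) (r (n0 + j)) (F h) (hh n0), hm]
  have hw : ∀ j c, cnt (r n0) {y | r (n0 + j) c y} = m ^ j := by
    intro j
    induction j with
    | zero => intro c; simpa using cnt_class (r n0) c
    | succ j ih =>
      intro c
      have := cnt_fiber (r n0) (r (n0 + j)) (r_mono _ _ (by omega)) {y | r (n0 + j + 1) c y}
        (fun x y hx hxy => (r _).trans hx (r_mono _ _ (by omega) _ _ hxy)) (fin_cls _ _ _)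
        (m ^ j) (m ^ j) (fun x _ => ⟨(ih x).ge, (ih x).le⟩)
      rw [hreg] at this
      rw [pow_succ]
      exact le_antisymm this.2 this.1
  obtain ⟨D, hD⟩ : ∃ D : ℕ, (D : ℤ) = 42 * E + 2 := ⟨(42 * E + 2).toNat, by omega⟩
  refine arith (fun t c => cnt (r n0) (blk t c)) m (2 ^ (2 * D + 1) * 3 ^ D) (σ n0 + 16 * E) hm1
    (fun t ht => ?_) (fun t t' ht htt lo hi hb c => ?_)
  · have hex : ∃ j : ℕ, t < σ (n0 + j + 1) + 16 * E := by
      refine ⟨(t - σ n0).toNat, ?_⟩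
      have := hσg n0 ((t - σ n0).toNat + 1)
      rw [← add_assoc] at this
      push_cast at this
      omega
    have hj1 := Nat.find_spec hex
    have hj2 : σ (n0 + Nat.find hex) + 16 * E ≤ t := by
      rcases Nat.eq_zero_or_pos (Nat.find hex) with h0 | h0
      · rw [h0]; exact ht
      · have := Nat.find_min hex (m := Nat.find hex - 1) (by omega)
        have e : n0 + (Nat.find hex - 1) + 1 = n0 + Nat.find hex := by omega
        rw [e] at this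
        omega
    generalize Nat.find hex = j at hj1 hj2
    refine ⟨j, fun c => ⟨cnt (r (n0 + j)) (blk t c), cnt_pos _ _ (fin_r _ _ _) ⟨c, Ag.refl _ _⟩,
      ?_, ?_⟩⟩
    · have h1 := (hσs (n0 + j)).2
      have h2 := (cnt_le_of_le (lev (t - D)) (r (n0 + j))
        (fun x y hxy => sub_r _ _ _ (Ag.mono hxy (by omega))) _ (fin_lev_blk _ t c)).2
      have h3 : cnt (lev (t - D)) (blk t c) = nb (t - D) t := (card_blocks (by omega) c).2
      exact h2.trans (h3.le.trans (nb_le t D))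
    · have := cnt_fiber (r n0) (r (n0 + j)) (r_mono _ _ (by omega)) (blk t c)
        (fun x y hx hxy => Ag.trans hx ((r_sub _ _ _ hxy).mono hj2)) (fin_r _ _ _)
        (m ^ j) (m ^ j) (fun x _ => ⟨(hw j x).ge, (hw j x).le⟩)
      exact le_antisymm this.2 this.1
  · have := cnt_fiber (r n0) (lev t) (fun x y hxy => (r_sub _ _ _ hxy).mono ht) (blk t' c)
      (fun x y hx hxy => Ag.trans hx (Ag.mono hxy htt)) (fin_r _ _ _) lo hi (fun x _ => hb x)
    have h3 : cnt (lev t) (blk t' c) = nb t t' := (card_blocks htt c).2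
    rw [h3] at this
    exact this

end Act

end Pool.Agent.MP_8f2dc9_al

end

-- part MP_8f2dc9_al.Height
section

/-!
Quasi-isometries of the model translate the height up to a bounded error, hence no group
quasi-acts coboundedly on the model.
-/

namespace Pool.Agent.MP_8f2dc9_al

universe u

/-- a quasi-isometry, its quasi-inverse and the induced bijections of leaves -/
structure LIso (B M G : ℤ) (f f' : Pt → Pt) (F F' : Cc → Cc) : Prop where
  hB : 0 ≤ B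
  hM : 0 ≤ M
  hG : 0 ≤ G
  iso : QIso B f f'
  leaf : ∀ c, Leaf M f c (F c)
  leaf' : ∀ c, Leaf M f' c (F' c)
  left : ∀ c, F' (F c) = c
  right : ∀ c, F (F' c) = c
  gp1 : ∀ u v w, gp (f u) (f v) (f w) ≤ B * gp u v w + G
  gp2 : ∀ u v w, gp (f' u) (f' v) (f' w) ≤ B * gp u v w + G

/-- constants -/
def j0 (B M : ℤ) : ℤ := M + B * (2 * M) + 2 * B + 3

/-- constants -/
def rho (B M : ℤ) : ℤ := B * (2 * j0 B M) + B + M

/-- constants -/
def ee (B M G : ℤ) : ℕ := (B * (3 * rho B M + 2 * G + 6) + B).toNat + 1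

/-- constants -/
def E1 (B M G : ℤ) : ℤ := rho B M + B + ee B M G

/-- constants -/
def E2 (B M G : ℤ) : ℤ := 2 * (B * (2 * M) + 2 * B + 2) + E1 B M G + rho B M + B * (2 * rho B M)

namespace LIso

variable {B M G : ℤ} {f f' : Pt → Pt} {F F' : Cc → Cc} (H : LIso B M G f f' F F')
include H

lemma symm : LIso B M G f' f F' F :=
  ⟨H.hB, H.hM, H.hG, ⟨H.iso.qi', H.iso.qi, H.iso.right, H.iso.left⟩, H.leaf', H.leaf, H.right,
    H.left, H.gp2, H.gp1⟩

lemma j0_pos : 0 < j0 B M := by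
  have := H.hB
  have := H.hM
  unfold j0; positivity

lemma rho_nonneg : 0 ≤ rho B M := by
  have := H.hB
  have := H.hM
  have := H.j0_pos
  unfold rho; positivity

lemma fwd {c c' : Cc} (x : ℝ) {t j : ℤ} (hj : 0 ≤ j) (h : Ag (t + j) c c') :
    Ag ((f ⟨c, x, t⟩).t + (B * (2 * j) + B + M)) (F c) (F c') := by
  have hB := H.hB
  have hM := H.hM
  have a1 : DD ⟨c, x, t⟩ ⟨c', x, t⟩ ≤ 2 * j := DD_proj (u := ⟨c, x, t⟩) hj h.symm
  have a2 := H.iso.qi.le hB a1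
  rw [DD_comm] at a2
  have a3 := near_leaf hM (H.leaf c' x t) a2
  have a4 : 0 ≤ B * (2 * j) := by positivity
  exact ((H.leaf c x t).mono (by omega)).trans (a3.mono (by omega)).symm

lemma back {c c' : Cc} (x : ℝ) {t i : ℤ} (hi : M ≤ i)
    (h : Ag ((f ⟨c, x, t⟩).t + i) (F c) (F c')) :
    Ag (t + M + (B * (2 * i) + 2 * B + 2)) c c' := by
  have hB := H.hB
  have hM := H.hM
  have a0 : Ag ((f ⟨c, x, t⟩).t + i) (F c') (f ⟨c, x, t⟩).c :=
    h.symm.trans ((H.leaf c x t).mono (by omega))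
  have a1 := DD_proj (by omega) a0
  have a2 := H.iso.qi'.le hB a1
  have a3 := H.iso.left ⟨c, x, t⟩
  have a4 := DD_tri (f' ⟨F c', (f ⟨c, x, t⟩).x, (f ⟨c, x, t⟩).t⟩) (f' (f ⟨c, x, t⟩)) ⟨c, x, t⟩
  rw [DD_comm] at a2
  have a5 := H.leaf' (F c') (f ⟨c, x, t⟩).x (f ⟨c, x, t⟩).t
  rw [H.left] at a5
  exact (near_leaf (v := ⟨c, x, t⟩) hM a5 (ρ := B * (2 * i) + 2 * B + 2) (by omega)).symm

lemma grow (c : Cc) (x x' : ℝ) (t : ℤ) {k : ℤ} (hk : 0 ≤ k) :
    M < (f ⟨c, x', t + k⟩).t + rho B M - (f ⟨c, x, t⟩).t ∧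
      k < B * (2 * ((f ⟨c, x', t + k⟩).t + rho B M - (f ⟨c, x, t⟩).t)) := by
  have hB := H.hB
  have hM := H.hM
  have hj := H.j0_pos
  obtain ⟨c'', h1, h2⟩ := exists_branch (t + k + j0 B M - 1) c
  rw [sub_add_cancel] at h1
  have a1 := H.fwd x' hj.le h1
  obtain ⟨i, hi⟩ : ∃ i, i = (f ⟨c, x', t + k⟩).t + rho B M - (f ⟨c, x, t⟩).t := ⟨_, rfl⟩
  rw [← hi]
  have a2 := H.back x (t := t) (c := c) (c' := c'') (i := max M i) (le_max_left _ _)
    (a1.mono (by unfold rho at hi; omega))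
  have a3 : k + B * (2 * M) < B * (2 * max M i) := by
    by_contra hc
    exact h2 (a2.mono (by unfold j0; omega))
  have a4 : 0 ≤ B * (2 * M) := by positivity
  rcases le_total i M with h | h
  · rw [max_eq_left h] at a3; omega
  · rw [max_eq_right h] at a3
    refine ⟨?_, by omega⟩
    by_contra hc
    have : i = M := by omega
    rw [this] at a3; omega

lemma flat (c : Cc) (x x' : ℝ) (t : ℤ) : (f ⟨c, x, t⟩).t ≤ (f ⟨c, x', t⟩).t + rho B M := by
  have := (H.grow c x x' t le_rfl).1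
  have := H.hM
  rw [add_zero] at *
  omega

lemma above (c : Cc) (x : ℝ) (t : ℤ) {k : ℤ} (hk : 0 ≤ k) :
    mj (f ⟨c, x, t⟩) (f ⟨c, x, t + k⟩) ≤ (f ⟨c, x, t + k⟩).t + G + 1 := by
  have hB := H.hB
  obtain ⟨μ, hμ⟩ : ∃ μ, μ = mj (f ⟨c, x, t⟩) (f ⟨c, x, t + k⟩) := ⟨_, rfl⟩
  obtain ⟨l, hl0, hl⟩ : ∃ l : ℤ, 0 ≤ l ∧ B * (2 * (μ + rho B M - (f ⟨c, x, t + k⟩).t)) ≤ l :=
    ⟨max 0 _, le_max_left _ _, le_max_right _ _⟩
  have a1 := (H.grow c x x (t + k) hl0).2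
  have a2 : μ < (f ⟨c, x, t + k + l⟩).t := by
    by_contra hc
    have : B * (2 * ((f ⟨c, x, t + k + l⟩).t + rho B M - (f ⟨c, x, t + k⟩).t)) ≤
        B * (2 * (μ + rho B M - (f ⟨c, x, t + k⟩).t)) := mul_le_mul_of_nonneg_left (by omega) hB
    omega
  have a3 : gp ⟨c, x, t⟩ ⟨c, x, t + k + l⟩ ⟨c, x, t + k⟩ = 0 := by
    unfold gp
    rw [mj_comm ⟨c, x, t + k + l⟩, mj_vertical c x (show t ≤ t + k by omega),
      mj_vertical c x (show t + k ≤ t + k + l by omega),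
      mj_vertical c x (show t ≤ t + k + l by omega)]
    show t + k + (t + k + l) - (t + k + l) - (t + k) = 0
    ring
  have a4 := H.gp1 ⟨c, x, t⟩ ⟨c, x, t + k + l⟩ ⟨c, x, t + k⟩
  rw [a3, mul_zero] at a4
  have a5 := mj_ultra (f ⟨c, x, t⟩) (f ⟨c, x, t + k⟩) (f ⟨c, x, t + k + l⟩)
  have a6 := le_mj_left (f ⟨c, x, t + k + l⟩) (f ⟨c, x, t + k⟩)
  rw [mj_comm (f ⟨c, x, t + k⟩)] at a5
  unfold gp at a4
  omega

lemma dyadic (c : Cc) (t h0 : ℤ) (h : ∀ x, (f ⟨c, x, t⟩).t ≤ h0) (n : ℕ) :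
    ∀ x, mj (f ⟨c, x, t⟩) (f ⟨c, x + 2 ^ (t + n), t⟩) ≤ h0 + B + n := by
  induction n with
  | zero =>
    intro x
    have a1 : mj ⟨c, x, t⟩ ⟨c, x + 2 ^ t, t⟩ ≤ t := mj_le ⟨le_rfl, le_rfl, Ag.refl _ _, by
      show |x - (x + 2 ^ t)| ≤ _
      rw [sub_add_cancel_left, abs_neg, abs_of_pos (two_zpow_pos t)]⟩
    have a2 : DD ⟨c, x, t⟩ ⟨c, x + 2 ^ t, t⟩ ≤ 0 := by
      show 2 * mj _ _ - t - t ≤ 0
      omega
    have a3 := H.iso.qi.le H.hB a2
    have a4 := mj_le_DD (f ⟨c, x, t⟩) (f ⟨c, x + 2 ^ t, t⟩)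
    have := h x
    simp only [Nat.cast_zero, add_zero]
    omega
  | succ n ih =>
    intro x
    have e : x + (2 : ℝ) ^ (t + ((n + 1 : ℕ) : ℤ)) = x + 2 ^ (t + n) + 2 ^ (t + n) := by
      push_cast
      rw [← add_assoc t, two_zpow_succ]; ring
    rw [e]
    have a1 := ih x
    have a2 := ih (x + 2 ^ (t + n))
    have a3 := mj_ultra (f ⟨c, x, t⟩) (f ⟨c, x + 2 ^ (t + n), t⟩)
      (f ⟨c, x + 2 ^ (t + n) + 2 ^ (t + n), t⟩)
    push_cast
    omega

lemma upper (c : Cc) (x : ℝ) (t : ℤ) {k : ℤ} (hk : 0 ≤ k) :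
    (f ⟨c, x, t + k⟩).t ≤ (f ⟨c, x, t⟩).t + k + E1 B M G := by
  have hB := H.hB
  have hG := H.hG
  have hρ := H.rho_nonneg
  obtain ⟨n, hn⟩ : ∃ n : ℕ, (n : ℤ) = k + ee B M G := ⟨(k + ee B M G).toNat, by omega⟩
  obtain ⟨x', hx'⟩ : ∃ x', x' = x + (2 : ℝ) ^ (t + n) := ⟨_, rfl⟩
  have a1 := H.dyadic c t ((f ⟨c, x, t⟩).t + rho B M) (fun y => H.flat c y x t) n x
  rw [← hx'] at a1
  have a2 : t + n - 1 < mj ⟨c, x, t + k⟩ ⟨c, x', t + k⟩ := lt_mj_of_lt (by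
    show _ < |x - x'|
    rw [hx', sub_add_cancel_left, abs_neg, abs_of_pos (two_zpow_pos _)]
    have h1 := two_zpow_succ (t + n - 1)
    rw [sub_add_cancel] at h1
    have := two_zpow_pos (t + n - 1)
    linarith)
  have a3 : DD ⟨c, x, t + k⟩ ⟨c, x', t + k⟩ = 2 * mj ⟨c, x, t + k⟩ ⟨c, x', t + k⟩ - (t + k) - (t + k) :=
    rfl
  have a4 := H.flat c x x' (t + k)
  have a5 := H.flat c x' x (t + k)
  have a6 : (f ⟨c, x, t + k⟩).t + rho B M + G + 4 ≤ mj (f ⟨c, x, t + k⟩) (f ⟨c, x', t + k⟩) := by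
    by_contra hc
    have b1 : DD (f ⟨c, x, t + k⟩) (f ⟨c, x', t + k⟩) ≤ 3 * rho B M + 2 * G + 6 := by
      unfold DD; omega
    have b2 := H.iso.qi.ge hB b1
    unfold ee at hn
    omega
  have a7 := H.above c x t hk
  have a8 := H.above c x' t hk
  have a9 := mj_ultra (f ⟨c, x, t + k⟩) (f ⟨c, x, t⟩) (f ⟨c, x', t + k⟩)
  have a10 := mj_ultra (f ⟨c, x, t⟩) (f ⟨c, x', t⟩) (f ⟨c, x', t + k⟩)
  rw [mj_comm (f ⟨c, x, t + k⟩) (f ⟨c, x, t⟩)] at a9
  unfold E1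
  omega

lemma back_height (c : Cc) (x : ℝ) (t : ℤ) :
    t ≤ (f' ⟨F c, (f ⟨c, x, t⟩).x, (f ⟨c, x, t⟩).t⟩).t + (B * (2 * M) + 2 * B + 2) ∧
    (f' ⟨F c, (f ⟨c, x, t⟩).x, (f ⟨c, x, t⟩).t⟩).t ≤ t + (B * (2 * M) + 2 * B + 2) := by
  have a1 := DD_proj H.hM (H.leaf c x t)
  have a2 := H.iso.qi'.le H.hB a1
  have a3 := H.iso.left ⟨c, x, t⟩
  have a4 := DD_tri (f' ⟨F c, (f ⟨c, x, t⟩).x, (f ⟨c, x, t⟩).t⟩) (f' (f ⟨c, x, t⟩)) ⟨c, x, t⟩
  rw [DD_comm] at a2
  have a5 : t ≤ _ := t_le_DD (f' ⟨F c, (f ⟨c, x, t⟩).x, (f ⟨c, x, t⟩).t⟩) ⟨c, x, t⟩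
  have a6 : _ ≤ t + _ := t_le_DD' (f' ⟨F c, (f ⟨c, x, t⟩).x, (f ⟨c, x, t⟩).t⟩) ⟨c, x, t⟩
  omega

lemma lower (c : Cc) (x : ℝ) (t : ℤ) {k : ℤ} (hk : 0 ≤ k) :
    (f ⟨c, x, t⟩).t + k ≤ (f ⟨c, x, t + k⟩).t + E2 B M G := by
  have hB := H.hB
  have hM := H.hM
  have hρ := H.rho_nonneg
  have b0 : 0 ≤ B * (2 * rho B M) := by positivity
  have b1 : 0 ≤ B * (2 * M) := by positivity
  have b2 : 0 ≤ E1 B M G := by unfold E1; positivity
  have a1 := H.back_height c x t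
  have a2 := H.back_height c x (t + k)
  rcases le_total (f ⟨c, x, t⟩).t (f ⟨c, x, t + k⟩).t with h | h
  · have a3 := H.symm.upper (F c) (f ⟨c, x, t⟩).x (f ⟨c, x, t⟩).t
      (k := (f ⟨c, x, t + k⟩).t - (f ⟨c, x, t⟩).t) (by omega)
    rw [add_sub_cancel] at a3
    have a4 := H.symm.flat (F c) (f ⟨c, x, t + k⟩).x (f ⟨c, x, t⟩).x (f ⟨c, x, t + k⟩).t
    unfold E2
    omega
  · have a3 := H.grow c x x t hk
    have : B * (2 * ((f ⟨c, x, t + k⟩).t + rho B M - (f ⟨c, x, t⟩).t)) ≤ B * (2 * rho B M) :=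
      mul_le_mul_of_nonneg_left (by omega) hB
    unfold E2
    omega

lemma height (u : Pt) :
    (f u).t ≤ u.t + (f ⟨0, 0, 0⟩).t + (E1 B M G + E2 B M G + rho B M + B) ∧
    u.t + (f ⟨0, 0, 0⟩).t ≤ (f u).t + (E1 B M G + E2 B M G + rho B M + B) := by
  obtain ⟨c, x, t⟩ := u
  obtain ⟨T0, hT0⟩ := exists_Ag c 0
  obtain ⟨T, h1, h2, h3⟩ : ∃ T, T0 ≤ T ∧ t ≤ T ∧ 0 ≤ T := ⟨max T0 (max t 0), by omega, by omega, by omega⟩
  have a1 := H.upper c x t (k := T - t) (by omega)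
  have a2 := H.lower c x t (k := T - t) (by omega)
  have a3 := H.upper 0 0 0 h3
  have a4 := H.lower 0 0 0 h3
  rw [add_sub_cancel] at a1 a2
  rw [zero_add] at a3 a4
  have a5 := H.flat c x 0 T
  have a6 := H.flat c 0 x T
  have a7 : DD ⟨c, 0, T⟩ ⟨0, 0, T⟩ ≤ 2 * 0 :=
    DD_proj (u := ⟨c, 0, T⟩) le_rfl (hT0.symm.mono (show T0 ≤ T + 0 by omega))
  have a8 := H.iso.qi.le H.hB a7
  have a9 := t_le_DD (f ⟨c, 0, T⟩) (f ⟨0, 0, T⟩)
  have a10 := t_le_DD' (f ⟨c, 0, T⟩) (f ⟨0, 0, T⟩)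
  simp only [mul_zero] at a8
  show _ ≤ t + _ + _ ∧ t + _ ≤ _
  omega

end LIso

/-- a cobounded quasi-action on the model -/
structure QAct {G : Type u} [Group G] (f : G → Pt → Pt) (B : ℤ) : Prop where
  nonneg : 0 ≤ B
  qi : ∀ g, QI B (f g)
  mul : ∀ g h u, DD (f (g * h) u) (f g (f h u)) ≤ B
  one : ∀ u, DD (f 1 u) u ≤ B
  inv : ∀ g u, DD (f g⁻¹ (f g u)) u ≤ B
  cob : ∀ u v, ∃ g, DD (f g u) v ≤ B

theorem QAct.false {Γ : Type u} [Group Γ] {f : Γ → Pt → Pt} {B : ℤ} (H : QAct f B) : False := by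
  have hB := H.nonneg
  obtain ⟨G, hG, hgp⟩ := gp_two B hB
  have iso : ∀ g, QIso B (f g) (f g⁻¹) := fun g =>
    ⟨H.qi g, H.qi g⁻¹, H.inv g, fun u => by have := H.inv g⁻¹ u; rwa [inv_inv] at this⟩
  have hlow : ∀ g c k, ∃ x t, (f g ⟨c, x, t⟩).t ≤ k := fun g c k =>
    exists_low hB (H.qi g) (hgp _ _ (iso g)) c k
  choose F hF using fun g c => exists_leaf hB (H.qi g) (hgp _ _ (iso g)) c
  have hM : 0 ≤ G + 1 := by omega
  generalize G + 1 = M at hF hM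
  have Fone : ∀ c, F 1 c = c := by
    intro c
    refine leaf_unique (hlow 1 c) (hF 1 c) (R' := 0 + B) (fun x t => ?_)
    have := H.one ⟨c, x, t⟩
    rw [DD_comm] at this
    exact (near_leaf (u := ⟨c, x, t⟩) (R := 0) le_rfl (Ag.refl _ _) this).mono (by omega)
  have Fmul : ∀ g h c, F (g * h) c = F g (F h c) := by
    intro g h c
    refine leaf_unique (hlow (g * h) c) (hF (g * h) c) (R' := M + (B * (2 * M) + 2 * B + 2))
      (fun x t => ?_)
    have a1 := DD_proj hM (hF h c x t)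
    have a2 := (H.qi g).le hB a1
    have a3 := H.mul g h ⟨c, x, t⟩
    have a4 := DD_tri (f g ⟨F h c, (f h ⟨c, x, t⟩).x, (f h ⟨c, x, t⟩).t⟩) (f g (f h ⟨c, x, t⟩))
      (f (g * h) ⟨c, x, t⟩)
    rw [DD_comm] at a2 a3
    exact (near_leaf hM (hF g (F h c) (f h ⟨c, x, t⟩).x (f h ⟨c, x, t⟩).t) (v := f (g * h) ⟨c, x, t⟩)
      (ρ := B * (2 * M) + 2 * B + 2) (by omega)).mono (by omega)
  have L : ∀ g, LIso B M G (f g) (f g⁻¹) (F g) (F g⁻¹) := fun g =>
    ⟨hB, hM, hG, iso g, hF g, hF g⁻¹, fun c => by rw [← Fmul, inv_mul_cancel, Fone],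
      fun c => by rw [← Fmul, mul_inv_cancel, Fone], fun u v w => (hgp _ _ (iso g) u v w).2,
      fun u v w => (hgp _ _ (iso g⁻¹) u v w).2⟩
  obtain ⟨E, hE0, hE⟩ : ∃ E : ℤ, 0 ≤ E ∧ ∀ g u, (f g u).t ≤ u.t + (f g ⟨0, 0, 0⟩).t + E ∧
      u.t + (f g ⟨0, 0, 0⟩).t ≤ (f g u).t + E := by
    refine ⟨max 0 (E1 B M G + E2 B M G + rho B M + B), le_max_left _ _, fun g u => ?_⟩
    have := (L g).height u
    omega
  refine Act.false (F := F) (s := fun g => (f g ⟨0, 0, 0⟩).t) (E := E + B + M)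
    ⟨by omega, Fone, Fmul, fun g t c c' h => ?_, fun g h => ?_, fun c t => ?_⟩
  · have a1 := (L g).fwd (c := c) (c' := c') 0 (t := t) (j := 0) le_rfl (by rwa [add_zero])
    have a2 : _ ≤ t + _ + _ := (hE g ⟨c, 0, t⟩).1
    simp only [mul_zero] at a1
    exact a1.mono (by omega)
  · have a1 := H.mul g h ⟨0, 0, 0⟩
    have a2 := hE g (f h ⟨0, 0, 0⟩)
    have a3 := t_le_DD (f (g * h) ⟨0, 0, 0⟩) (f g (f h ⟨0, 0, 0⟩))
    have a4 := t_le_DD' (f (g * h) ⟨0, 0, 0⟩) (f g (f h ⟨0, 0, 0⟩))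
    constructor <;> omega
  · obtain ⟨g, hg⟩ := H.cob ⟨0, 0, 0⟩ ⟨c, 0, t⟩
    have a3 : t ≤ _ := t_le_DD (f g ⟨0, 0, 0⟩) ⟨c, 0, t⟩
    have a4 : _ ≤ t + _ := t_le_DD' (f g ⟨0, 0, 0⟩) ⟨c, 0, t⟩
    have a5 : Ag (t + M + B) _ c := near_leaf (v := ⟨c, 0, t⟩) hM (hF g 0 0 0) hg
    exact ⟨g, by omega, by omega, a5.mono (by omega)⟩

end Pool.Agent.MP_8f2dc9_al

end
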